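import Pool.Agent.Helper67_TP.Ident
import Pool.Agent.Helper51_TP.Ann

/-!
# Squad TP, module BASE: the abstract calculus holds in alternative algebras
-/

set_option autoImplicit false

namespace Pool.Agent.TP.H67

open Pool.Agent.TP

variable {B : Type} [NonUnitalNonAssocRing B]

/-- Jacobian of the commutator -/
def JJ (x y z : B) : B := kb (kb x y) z + kb (kb y z) x + kb (kb z x) y

section alt

variable (hB : IsAlt B) (h2B : ∀ x : B, 2 • x = 0 → x = 0)
include hB h2B

omit h2B in
theorem JJ6 (x y z : B) : JJ x y z = (6 : ℤ) • asc x y z := by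
  have key : JJ x y z = asc x y z - asc x z y - asc y x z
      + asc y z x + asc z x y - asc z y x := by
    simp only [JJ, kb, asc, mul_sub, sub_mul]; abel
  rw [key, s23 hB x y z, s12 hB x y z, cyc hB x y z, cyc' hB x y z, s13 hB x y z]
  abel

theorem kb_zsmul2 (n : ℤ) (x y : B) : kb x (n • y) = n • kb x y := by
  simp only [kb, mul_smul_comm, smul_mul_assoc, smul_sub]

/-- the Jacobian form of the Malcev identity -/
theorem RJ (w x y z : B) : (3 : ℤ) • JJ (kb w x) y z + kb w (JJ x y z) - kb x (JJ y z w)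
    - (2 : ℤ) • kb y (JJ z w x) + (2 : ℤ) • kb z (JJ w x y) = 0 := by
  have h1 := F2 hB w x y z
  have h2 := F3 hB w x y z
  rw [JJ6 hB, JJ6 hB, JJ6 hB, JJ6 hB, JJ6 hB]
  simp only [kb_zsmul2 hB h2B]
  rw [cyc hB w y z] at *
  linear_combination (norm := module) (-18 : ℤ) • h1 + (12 : ℤ) • h2

theorem kb_zsmul1 (n : ℤ) (x y : B) : kb (n • x) y = n • kb x y := by
  simp only [kb, mul_smul_comm, smul_mul_assoc, smul_sub]

/-- the Sagle identity -/
theorem sagle3 (a b c d : B) : (3 : ℤ) • (kb (kb a c) (kb b d) - kb (kb (kb a b) c) d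
    - kb (kb (kb b c) d) a - kb (kb (kb c d) a) b - kb (kb (kb d a) b) c) = 0 := by
  have h1 := RJ hB h2B a c b d
  have h2 := RJ hB h2B a d b c
  have h3 := RJ hB h2B b c a d
  have key : (3 : ℤ) • (kb (kb a c) (kb b d) - kb (kb (kb a b) c) d
    - kb (kb (kb b c) d) a - kb (kb (kb c d) a) b - kb (kb (kb d a) b) c) =
      - ((3 : ℤ) • JJ (kb a c) b d + kb a (JJ c b d) - kb c (JJ b d a)
        - (2 : ℤ) • kb b (JJ d a c) + (2 : ℤ) • kb d (JJ a c b)) +
      ((3 : ℤ) • JJ (kb a d) b c + kb a (JJ d b c) - kb d (JJ b c a)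
        - (2 : ℤ) • kb b (JJ c a d) + (2 : ℤ) • kb c (JJ a d b)) +
      ((3 : ℤ) • JJ (kb b c) a d + kb b (JJ c a d) - kb c (JJ a d b)
        - (2 : ℤ) • kb a (JJ d b c) + (2 : ℤ) • kb d (JJ b c a)) := by
    simp only [JJ, kb, mul_sub, sub_mul, mul_add, add_mul, smul_sub, smul_add]
    abel
  rw [key, h1, h2, h3]
  simp

/-- the fully linearized identity `[x,y] o T(x,y,z) = 0` -/
theorem P4 (x x' y y' z : B) :
    (kb x' y' * asc x y z + asc x y z * kb x' y') + (kb x' y * asc x y' z + asc x y' z * kb x' y)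
    + (kb x y' * asc x' y z + asc x' y z * kb x y')
    + (kb x y * asc x' y' z + asc x' y' z * kb x y) = 0 := by
  have h1 := PPl hB h2B (x + x') y y' z
  have h2 := PPl hB h2B x y y' z
  have h3 := PPl hB h2B x' y y' z
  simp only [kb_add1, asc_add1, mul_add, add_mul] at h1
  linear_combination (norm := abel) h1 - h2 - h3

omit h2B in
/-- `(a o b) o c - a o (b o c) = [b,[a,c]] - 2(a,b,c)` -/
theorem m4' (a b c : B) : ((a * b + b * a) * c + c * (a * b + b * a)) -
    (a * (b * c + c * b) + (b * c + c * b) * a) = kb b (kb a c) - (asc a b c + asc a b c) := by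
  have key : ((a * b + b * a) * c + c * (a * b + b * a)) -
    (a * (b * c + c * b) + (b * c + c * b) * a) = kb b (kb a c) +
      (asc a b c + asc b a c - asc c a b - asc c b a + asc a c b - asc b c a) := by
    simp only [kb, asc, mul_sub, sub_mul, mul_add, add_mul]; abel
  rw [key, s12 hB a b c, cyc' hB a b c, s13 hB a b c, s23 hB a b c, cyc hB a b c]
  abel

omit h2B in
/-- `v o [v,x] = [v v, x]` -/
theorem g1' (v x : B) : v * kb v x + kb v x * v = kb (v * v) x := by
  have key : v * kb v x + kb v x * v - kb (v * v) x =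
      - asc v v x - asc v x v + asc v x v + asc v x v - asc x v v := by
    simp only [kb, asc, mul_sub, sub_mul]; abel
  rw [← sub_eq_zero, key, a_xxz hB, a_xzx hB, a_zxx hB]
  abel

end alt

theorem brB_apply (x y : B) : brB B x y = kb x y := rfl

theorem joB_apply (x y : B) : joB B x y = 6 • (x * y + y * x) := rfl

theorem Jc_brB (hB : IsAlt B) (x y z : B) : Jc (brB B) x y z = 6 • asc x y z := by
  have h := JJ6 hB x y z
  rw [JJ] at h
  rw [Jc]
  simp only [brB_apply]
  rw [h]
  exact ofNat_zsmul _ _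

theorem joB_nsmul1 (n : ℕ) (x y : B) : joB B (n • x) y = n • joB B x y := by
  rw [map_nsmul]; rfl

theorem brB_nsmul1 (n : ℕ) (x y : B) : brB B (n • x) y = n • brB B x y := by
  rw [map_nsmul]; rfl

theorem base : BaseStmt := by
  intro B _ hB h2B h3B hnuc hann
  have h6 : ∀ x : B, 6 • x = 0 → x = 0 := by
    intro x hx
    apply h2B
    apply h3B
    rw [← hx, ← mul_nsmul]
  have hcn : ∀ r : B, (∀ y z, Jc (brB B) r y z = 0) → r = 0 := by
    intro r hr
    apply hnuc
    intro y z
    apply h6
    rw [← Jc_brB hB, hr]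
  refine ⟨h2B, h3B, ?_, ?_, ?_, ?_, ?_, ?_, ?_, ?_, ?_, hcn, ?_⟩
  · intro x y
    simp only [brB_apply, kb]; abel
  · intro x y
    simp only [joB_apply, smul_add]; abel
  · intro a b c d
    simp only [brB_apply]
    have h := sagle3 hB h2B a b c d
    rw [← sub_eq_zero]
    apply h3B
    rw [← h]
    simp only [sub_add_eq_sub_sub]
    exact (ofNat_zsmul _ _).symm
  · intro a b c
    rw [joB_apply, brB_nsmul1, joB_apply, joB_apply, ← smul_add]
    simp only [brB_apply]
    rw [m2' hB h2B a b c]
  · intro x x' y y' z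
    simp only [Jc_brB hB, joB_nsmul1]
    simp only [joB_apply, brB_apply, ← smul_add]
    have h := P4 hB h2B x x' y y' z
    rw [show asc x y z * kb x' y' + kb x' y' * asc x y z +
      (asc x y' z * kb x' y + kb x' y * asc x y' z) +
      (asc x' y z * kb x y' + kb x y' * asc x' y z) +
      (asc x' y' z * kb x y + kb x y * asc x' y' z) = 0 from by
        linear_combination (norm := abel) h]
    rw [smul_zero, smul_zero]
  · intro a b c
    rw [joB_apply a b, joB_nsmul1, joB_apply b c, map_nsmul, Jc_brB hB]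
    simp only [joB_apply, brB_apply]
    have h := m4' hB a b c
    have e1 : (36 : ℕ) • kb b (kb a c) - (12 : ℕ) • (6 : ℕ) • asc a b c =
        (36 : ℕ) • (kb b (kb a c) - (asc a b c + asc a b c)) := by
      rw [smul_sub, smul_add]
      abel
    rw [e1, ← h, smul_sub, ← mul_nsmul, ← mul_nsmul]
  · intro x y z
    rw [Jc_brB hB]
    simp only [brB_apply]
    have e1 : (3 : ℕ) • kb (kb x y) (kb x z) + kb x (6 • asc x y z) =
        (3 : ℕ) • (kb (kb x y) (kb x z) + (kb x (asc x y z) + kb x (asc x y z))) := by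
      have : kb x (6 • asc x y z) = 6 • kb x (asc x y z) := map_nsmul (brB B x) _ _
      rw [this, smul_add, smul_add]
      abel
    rw [e1]
    have e2 : kb x (3 • (kb (kb x y) (kb x z) + (kb x (asc x y z) + kb x (asc x y z)))) =
        3 • kb x (kb (kb x y) (kb x z) + (kb x (asc x y z) + kb x (asc x y z))) :=
      map_nsmul (brB B x) _ _
    rw [e2, kb_skew x, ruleL hB h2B hnuc _ x (fun w => gm hB h2B h3B x y z w), neg_zero, smul_zero]
  · intro x y
    rw [joB_apply]
    simp only [brB_apply]
    rw [g1' hB, ruleL hB h2B hnuc _ x (fun w => vv hB h2B x y w), smul_zero]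
  · intro r hr
    apply hcn
    intro y z
    have h1 := hr y
    have h2 := hr z
    have h3 := hr (brB B y z)
    have h4 : brB B (brB B y z) r = - brB B r (brB B y z) := by
      simp only [brB_apply]; exact kb_skew _ _
    have h5 : brB B z r = - brB B r z := by
      simp only [brB_apply]; exact kb_skew _ _
    rw [Jc, h1, h4, h5, h2, h3]
    simp
  · intro r h1 h2
    have h3 : ∀ x y z : B, r * asc x y z + asc x y z * r = 0 := by
      intro x y z
      have h := h1 x y z
      rw [Jc_brB hB, map_nsmul, joB_apply] at h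
      exact h6 _ (h6 _ h)
    have h4 : ∀ x y z : B, r * asc x y z - asc x y z * r = 0 := by
      intro x y z
      have h := h2 x y z
      rw [Jc_brB hB, map_nsmul, brB_apply] at h
      exact h6 _ h
    have h5 : ∀ x y z : B, r * asc x y z = 0 := by
      intro x y z
      apply h2B
      rw [two_smul]
      linear_combination (norm := abel) h3 x y z + h4 x y z
    have h7 : ∀ x y z : B, asc x y z * r = 0 := by
      intro x y z
      have := h3 x y z
      rwa [h5, zero_add] at this
    exact hann r h5 h7 (H51.h51_ann hB h2B r h5 h7)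

end Pool.Agent.TP.H67
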