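import Pool.Agent.Helper19_TP.Stmts

/-!
# Squad TP, module PRIME: a maximal T-ideal gives a T-prime algebra
-/

set_option autoImplicit false

namespace Pool.Agent.TP.H67

open Pool.Agent.TP

/-- the free nonassociative algebra -/
abbrev Fr (F : Type) [Field F] : Type := MonoidAlgebra F (FreeMagma ℕ)

variable {F : Type} [Field F]

/-- monomials -/
noncomputable def mo (F : Type) [Field F] (w : FreeMagma ℕ) : Fr F := MonoidAlgebra.single w 1

theorem mo_mul (w v : FreeMagma ℕ) : mo F (w * v) = mo F w * mo F v := by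
  rw [mo, mo, mo, MonoidAlgebra.single_mul_single, one_mul]

section ev

variable {A : Type} [NonUnitalNonAssocRing A] [Module F A] [IsScalarTower F A A]
  [SMulCommClass F A A]

/-- evaluation -/
noncomputable def ev (φ : ℕ → A) : Fr F →ₙₐ[F] A :=
  MonoidAlgebra.liftMagma F (FreeMagma.lift φ)

theorem ev_mo (φ : ℕ → A) (w : FreeMagma ℕ) : ev (F := F) φ (mo F w) = FreeMagma.lift φ w := by
  rw [ev, mo]
  simp [MonoidAlgebra.liftMagma]

theorem ev_of (φ : ℕ → A) (i : ℕ) : ev (F := F) φ (mo F (FreeMagma.of i)) = φ i := by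
  rw [ev_mo, FreeMagma.lift_of]

/-- induction over the free algebra -/
theorem fr_induction {p : Fr F → Prop} (h1 : ∀ w, p (mo F w)) (h2 : ∀ a b, p a → p b → p (a + b))
    (h3 : ∀ (c : F) a, p a → p (c • a)) (a : Fr F) : p a := by
  have h0 : p 0 := by
    have := h3 0 _ (h1 (FreeMagma.of 0))
    rwa [zero_smul] at this
  induction a using MonoidAlgebra.induction_linear with
  | zero => exact h0
  | add a b ha hb => exact h2 a b ha hb
  | single w c =>
    have := h3 c _ (h1 w)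
    rw [mo, MonoidAlgebra.smul_single, smul_eq_mul, mul_one] at this
    exact this

/-- one more than the largest variable -/
def mx : FreeMagma ℕ → ℕ
  | .of i => i + 1
  | .mul a b => max (mx a) (mx b)

theorem mx_mul (a b : FreeMagma ℕ) : mx (a * b) = max (mx a) (mx b) := rfl

theorem mx_of (i : ℕ) : mx (FreeMagma.of i) = i + 1 := rfl

theorem hom_eq_of (g h : Fr F →ₙₐ[F] A) (n : ℕ)
    (hi : ∀ i < n, g (mo F (FreeMagma.of i)) = h (mo F (FreeMagma.of i)))
    (w : FreeMagma ℕ) (hw : mx w ≤ n) : g (mo F w) = h (mo F w) := by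
  induction w using FreeMagma.recOnMul with
  | ih1 i => exact hi i hw
  | ih2 v w ihv ihw =>
    rw [mx_mul, max_le_iff] at hw
    rw [mo_mul, map_mul, map_mul, ihv hw.1, ihw hw.2]

theorem hom_fin (a : Fr F) : ∃ n : ℕ, ∀ g h : Fr F →ₙₐ[F] A,
    (∀ i < n, g (mo F (FreeMagma.of i)) = h (mo F (FreeMagma.of i))) → g a = h a := by
  refine fr_induction (p := fun a => ∃ n : ℕ, ∀ g h : Fr F →ₙₐ[F] A,
    (∀ i < n, g (mo F (FreeMagma.of i)) = h (mo F (FreeMagma.of i))) → g a = h a)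
    (fun w => ?_) ?_ ?_ a
  · exact ⟨mx w, fun g h hgh => hom_eq_of g h (mx w) hgh w le_rfl⟩
  · rintro a b ⟨n, hn⟩ ⟨m, hm⟩
    refine ⟨max n m, fun g h hgh => ?_⟩
    rw [map_add, map_add, hn g h fun i hi => hgh i (lt_of_lt_of_le hi (le_max_left _ _)),
      hm g h fun i hi => hgh i (lt_of_lt_of_le hi (le_max_right _ _))]
  · rintro c a ⟨n, hn⟩
    refine ⟨n, fun g h hgh => ?_⟩
    rw [map_smul, map_smul, hn g h hgh]

theorem hom_ext' (g h : Fr F →ₙₐ[F] A)
    (hi : ∀ i, g (mo F (FreeMagma.of i)) = h (mo F (FreeMagma.of i))) : g = h := by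
  refine DFunLike.ext _ _ fun a => ?_
  obtain ⟨n, hn⟩ := hom_fin (A := A) a
  exact hn g h fun i _ => hi i

theorem ev_comp {B : Type} [NonUnitalNonAssocRing B] [Module F B] [IsScalarTower F B B]
    [SMulCommClass F B B] (g : A →ₙₐ[F] B) (φ : ℕ → A) (a : Fr F) :
    g (ev φ a) = ev (fun i => g (φ i)) a := by
  have : g.comp (ev φ) = ev (fun i => g (φ i)) := by
    refine hom_ext' _ _ fun i => ?_
    rw [NonUnitalAlgHom.comp_apply, ev_of, ev_of]
  exact DFunLike.congr_fun this a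

end ev

/-- the derived words -/
def dd : ℕ → ℕ → FreeMagma ℕ
  | 0, c => FreeMagma.of c
  | n + 1, c => dd n c * dd n (c + 2 ^ n)

theorem dd_zero (c : ℕ) : dd 0 c = FreeMagma.of c := rfl

theorem dd_succ (n c : ℕ) : dd (n + 1) c = dd n c * dd n (c + 2 ^ n) := rfl

theorem lift_dd {A : Type} [Mul A] (n : ℕ) : ∀ (c : ℕ) (φ ψ : ℕ → A) (d : ℕ),
    (∀ i < 2 ^ n, φ (c + i) = ψ (d + i)) →
      FreeMagma.lift φ (dd n c) = FreeMagma.lift ψ (dd n d) := by
  induction n with
  | zero =>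
    intro c φ ψ d h
    rw [dd_zero, dd_zero, FreeMagma.lift_of, FreeMagma.lift_of]
    exact h 0 (by norm_num)
  | succ n ih =>
    intro c φ ψ d h
    have hp : (2 : ℕ) ^ (n + 1) = 2 ^ n + 2 ^ n := by rw [pow_succ]; ring
    rw [dd_succ, dd_succ, map_mul, map_mul]
    rw [ih c φ ψ d fun i hi => h i (by omega)]
    rw [ih (c + 2 ^ n) φ ψ (d + 2 ^ n) fun i hi => ?_]
    have := h (2 ^ n + i) (by omega)
    rw [← add_assoc, ← add_assoc] at this
    exact this

section quot

variable {A : Type} [NonUnitalNonAssocRing A] [Module F A] [IsScalarTower F A A]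
  [SMulCommClass F A A]

theorem mul_sub_mem {P : Submodule F A} (hP : ∀ a ∈ P, ∀ b : A, a * b ∈ P ∧ b * a ∈ P)
    {a a' b b' : A} (h1 : a - a' ∈ P) (h2 : b - b' ∈ P) : a * b - a' * b' ∈ P := by
  have e : a * b - a' * b' = (a - a') * b + a' * (b - b') := by
    rw [sub_mul, mul_sub]; abel
  rw [e]
  exact P.add_mem (hP _ h1 _).1 (hP _ h2 _).2

/-- the quotient of an algebra by an ideal -/
@[reducible] noncomputable def qRing (P : Submodule F A)
    (hP : ∀ a ∈ P, ∀ b : A, a * b ∈ P ∧ b * a ∈ P) : NonUnitalNonAssocRing (A ⧸ P) :=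
  { Submodule.Quotient.addCommGroup P with
    mul := fun x y => Quotient.liftOn₂' x y (fun a b => Submodule.Quotient.mk (a * b))
      (fun a b a' b' h1 h2 => by
        refine (Submodule.Quotient.eq P).mpr (mul_sub_mem hP ?_ ?_)
        · exact (Submodule.quotientRel_def P).mp h1
        · exact (Submodule.quotientRel_def P).mp h2)
    left_distrib := by
      rintro ⟨a⟩ ⟨b⟩ ⟨c⟩
      exact congrArg (Submodule.Quotient.mk (p := P)) (mul_add a b c)
    right_distrib := by
      rintro ⟨a⟩ ⟨b⟩ ⟨c⟩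
      exact congrArg (Submodule.Quotient.mk (p := P)) (add_mul a b c)
    zero_mul := by
      rintro ⟨a⟩
      exact congrArg (Submodule.Quotient.mk (p := P)) (zero_mul a)
    mul_zero := by
      rintro ⟨a⟩
      exact congrArg (Submodule.Quotient.mk (p := P)) (mul_zero a) }

/-- quotient map -/
noncomputable def qmk (P : Submodule F A) (hP : ∀ a ∈ P, ∀ b : A, a * b ∈ P ∧ b * a ∈ P) :
    letI := qRing P hP
    A →ₙₐ[F] (A ⧸ P) :=
  letI := qRing P hP
  { toFun := Submodule.Quotient.mk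
    map_smul' := fun _ _ => rfl
    map_zero' := rfl
    map_add' := fun _ _ => rfl
    map_mul' := fun _ _ => rfl }

theorem q_tower (P : Submodule F A) (hP : ∀ a ∈ P, ∀ b : A, a * b ∈ P ∧ b * a ∈ P) :
    letI := qRing P hP
    IsScalarTower F (A ⧸ P) (A ⧸ P) := by
  letI := qRing P hP
  refine ⟨fun c x y => ?_⟩
  obtain ⟨a, rfl⟩ := Submodule.Quotient.mk_surjective P x
  obtain ⟨b, rfl⟩ := Submodule.Quotient.mk_surjective P y
  exact congrArg (Submodule.Quotient.mk (p := P)) (smul_mul_assoc c a b)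

theorem q_comm (P : Submodule F A) (hP : ∀ a ∈ P, ∀ b : A, a * b ∈ P ∧ b * a ∈ P) :
    letI := qRing P hP
    SMulCommClass F (A ⧸ P) (A ⧸ P) := by
  letI := qRing P hP
  refine ⟨fun c x y => ?_⟩
  obtain ⟨a, rfl⟩ := Submodule.Quotient.mk_surjective P x
  obtain ⟨b, rfl⟩ := Submodule.Quotient.mk_surjective P y
  exact congrArg (Submodule.Quotient.mk (p := P)) (mul_smul_comm c a b).symm

/-- an algebra map preserving `P` descends -/
noncomputable def qmap (P : Submodule F A) (hP : ∀ a ∈ P, ∀ b : A, a * b ∈ P ∧ b * a ∈ P)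
    (g : A →ₙₐ[F] A) (hg : ∀ a ∈ P, g a ∈ P) :
    letI := qRing P hP
    (A ⧸ P) →ₙₐ[F] (A ⧸ P) :=
  letI := qRing P hP
  { P.mapQ P (g : A →ₗ[F] A) (fun a ha => hg a ha) with
    map_zero' := map_zero _
    map_mul' := by
      rintro ⟨a⟩ ⟨b⟩
      exact congrArg (Submodule.Quotient.mk (p := P)) (map_mul g a b) }

end quot

/-- the identities of the variety -/
def P0 (F : Type) [Field F] (S : Set (Fr F)) : Submodule F (Fr F) where
  carrier := {f | ∀ (A : Type) [NonUnitalNonAssocRing A] [Module F A] [IsScalarTower F A A]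
    [SMulCommClass F A A], IsAlt A → Sat F S A → ∀ φ : ℕ → A, ev φ f = 0}
  add_mem' := by
    intro a b ha hb A _ _ _ _ h1 h2 φ
    rw [map_add, ha A h1 h2, hb A h1 h2, add_zero]
  zero_mem' := by
    intro A _ _ _ _ h1 h2 φ
    exact map_zero _
  smul_mem' := by
    intro c a ha A _ _ _ _ h1 h2 φ
    rw [map_smul, ha A h1 h2, smul_zero]

theorem P0_tideal (S : Set (Fr F)) : TIdeal F (Fr F) (P0 F S) := by
  refine ⟨fun a ha b => ⟨?_, ?_⟩, fun Φ a ha => ?_⟩
  · intro A _ _ _ _ h1 h2 φ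
    rw [map_mul, ha A h1 h2, zero_mul]
  · intro A _ _ _ _ h1 h2 φ
    rw [map_mul, ha A h1 h2, mul_zero]
  · intro A _ _ _ _ h1 h2 φ
    have : ev φ (Φ a) = ev (fun i => ev φ (Φ (mo F (FreeMagma.of i)))) a := by
      have e : (ev φ).comp Φ = ev (fun i => ev φ (Φ (mo F (FreeMagma.of i)))) := by
        refine hom_ext' _ _ fun i => ?_
        rw [NonUnitalAlgHom.comp_apply, ev_of]
      exact DFunLike.congr_fun e a
    rw [this]
    exact ha A h1 h2 _

theorem sub_P0 (S : Set (Fr F)) {f : Fr F} (hf : f ∈ S) : f ∈ P0 F S :=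
  fun _ _ _ _ _ _ h2 φ => h2 f hf φ

theorem alt1_P0 (S : Set (Fr F)) (a b : Fr F) : (a * a) * b - a * (a * b) ∈ P0 F S := by
  intro A _ _ _ _ h1 h2 φ
  rw [map_sub, map_mul, map_mul, map_mul, map_mul, h1.1, sub_self]

theorem alt2_P0 (S : Set (Fr F)) (a b : Fr F) : (b * a) * a - b * (a * a) ∈ P0 F S := by
  intro A _ _ _ _ h1 h2 φ
  rw [map_sub, map_mul, map_mul, map_mul, map_mul, h1.2, sub_self]

/-- derived words outside of the identities, if the variety is not solvable -/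
theorem D_notin (S : Set (Fr F)) (h : ¬ AllSolv F S) (n : ℕ) : mo F (dd n 0) ∉ P0 F S := by
  intro hn
  apply h
  refine ⟨n, ?_⟩
  intro A _ _ _ _ h1 h2 h3
  refine ⟨fun k => Submodule.span F {a | ∃ φ : ℕ → A, a = FreeMagma.lift φ (dd k 0)}, ?_, ?_, ?_⟩
  · rw [eq_top_iff]
    intro a _
    refine Submodule.subset_span ⟨fun _ => a, ?_⟩
    rw [dd_zero, FreeMagma.lift_of]
  · intro k x hx y hy
    induction hx using Submodule.span_induction with
    | mem x hx =>
      induction hy using Submodule.span_induction with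
      | mem y hy =>
        obtain ⟨φ, rfl⟩ := hx
        obtain ⟨ψ, rfl⟩ := hy
        refine Submodule.subset_span ⟨fun i => if i < 2 ^ k then φ i else ψ (i - 2 ^ k), ?_⟩
        rw [dd_succ, map_mul]
        congr 1
        · refine lift_dd k 0 _ _ 0 fun i hi => ?_
          rw [zero_add, if_pos hi]
        · refine lift_dd k 0 _ _ _ fun i hi => ?_
          rw [if_neg (by omega)]
          congr 1
          omega
      | zero => rw [mul_zero]; exact Submodule.zero_mem _
      | add y y' _ _ h1 h2 => rw [mul_add]; exact Submodule.add_mem _ h1 h2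
      | smul c y _ h1 => rw [mul_smul_comm]; exact Submodule.smul_mem _ _ h1
    | zero => rw [zero_mul]; exact Submodule.zero_mem _
    | add y y' _ _ h1 h2 => rw [add_mul]; exact Submodule.add_mem _ h1 h2
    | smul c y _ h1 => rw [smul_mul_assoc]; exact Submodule.smul_mem _ _ h1
  · rw [eq_bot_iff]
    refine Submodule.span_le.mpr ?_
    rintro a ⟨φ, rfl⟩
    have := hn A ⟨h1, h2⟩ h3 φ
    rw [ev_mo] at this
    exact this

/-- a maximal T-ideal -/
theorem exists_max (S : Set (Fr F)) (h : ¬ AllSolv F S) :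
    ∃ P : Submodule F (Fr F), TIdeal F (Fr F) P ∧ P0 F S ≤ P ∧ (∀ n, mo F (dd n 0) ∉ P) ∧
      ∀ Q : Submodule F (Fr F), TIdeal F (Fr F) Q → P < Q → ∃ n, mo F (dd n 0) ∈ Q := by
  obtain ⟨P, hP0, hP⟩ := zorn_le_nonempty₀ {P : Submodule F (Fr F) | TIdeal F (Fr F) P ∧
    P0 F S ≤ P ∧ ∀ n, mo F (dd n 0) ∉ P} (fun c hc hch y hy => by
      have hne : c.Nonempty := ⟨y, hy⟩
      have hdir : DirectedOn (· ≤ ·) c := hch.directedOn
      refine ⟨sSup c, ⟨⟨?_, ?_⟩, ?_, ?_⟩, fun z hz => le_sSup hz⟩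
      · intro a ha b
        rw [Submodule.mem_sSup_of_directed hne hdir] at ha
        obtain ⟨Q, hQ, haQ⟩ := ha
        have := (hc hQ).1.1 a haQ b
        exact ⟨le_sSup hQ this.1, le_sSup hQ this.2⟩
      · intro Φ a ha
        rw [Submodule.mem_sSup_of_directed hne hdir] at ha
        obtain ⟨Q, hQ, haQ⟩ := ha
        exact le_sSup hQ ((hc hQ).1.2 Φ a haQ)
      · exact (hc hy).2.1.trans (le_sSup hy)
      · intro n hn
        rw [Submodule.mem_sSup_of_directed hne hdir] at hn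
        obtain ⟨Q, hQ, hnQ⟩ := hn
        exact (hc hQ).2.2 n hnQ) (P0 F S) ⟨P0_tideal S, le_rfl, D_notin S h⟩
  refine ⟨P, hP.prop.1, hP.prop.2.1, hP.prop.2.2, fun Q hQ hPQ => ?_⟩
  by_contra hcon
  push Not at hcon
  exact absurd (hP.le_of_ge ⟨hQ, hP.prop.2.1.trans hPQ.le, hcon⟩ hPQ.le) (not_le_of_gt hPQ)

/-- the shift of the variables -/
noncomputable def sh (F : Type) [Field F] (c : ℕ) : Fr F →ₙₐ[F] Fr F :=
  ev (fun i => mo F (FreeMagma.of (c + i)))

theorem sh_dd (c n : ℕ) : sh F c (mo F (dd n 0)) = mo F (dd n c) := by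
  rw [sh, ev_mo]
  have key : ∀ w : FreeMagma ℕ, FreeMagma.lift (fun i => mo F (FreeMagma.of i)) w = mo F w := by
    intro w
    induction w using FreeMagma.recOnMul with
    | ih1 i => rw [FreeMagma.lift_of]
    | ih2 v w ihv ihw => rw [map_mul, ihv, ihw, mo_mul]
  rw [← key (dd n c)]
  refine lift_dd n 0 _ _ c fun i _ => ?_
  rw [zero_add]

theorem D_le {Q : Submodule F (Fr F)} (hQ : TIdeal F (Fr F) Q) {n : ℕ}
    (hn : mo F (dd n 0) ∈ Q) (m : ℕ) (hm : n ≤ m) : mo F (dd m 0) ∈ Q := by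
  induction m, hm using Nat.le_induction with
  | base => exact hn
  | succ m _ ih =>
    rw [dd_succ, mo_mul]
    exact (hQ.1 _ ih _).1

theorem prime : PrimeStmt := by
  intro F _ S h
  obtain ⟨P, hP, hP0, hPD, hmax⟩ := exists_max S h
  letI iR := qRing P hP.1
  letI iM : Module F (Fr F ⧸ P) := Submodule.Quotient.module P
  haveI iT : IsScalarTower F (Fr F ⧸ P) (Fr F ⧸ P) := q_tower P hP.1
  haveI iC : SMulCommClass F (Fr F ⧸ P) (Fr F ⧸ P) := q_comm P hP.1
  set π : Fr F →ₙₐ[F] (Fr F ⧸ P) := qmk P hP.1 with hπ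
  have hsurj : Function.Surjective π := Submodule.Quotient.mk_surjective P
  have hker : ∀ a, π a = 0 ↔ a ∈ P := fun a => Submodule.Quotient.mk_eq_zero P
  refine ⟨Fr F ⧸ P, iR, iM, iT, iC, fun i => π (mo F (FreeMagma.of i)), ⟨?_, ?_⟩, ⟨?_, ?_⟩,
    ?_, ?_, ?_⟩
  · intro φ
    choose a ha using fun i => hsurj (φ i)
    refine ⟨qmap P hP.1 (ev a) (fun b hb => hP.2 _ b hb), fun i => ?_⟩
    have : qmap P hP.1 (ev a) (fun b hb => hP.2 _ b hb) (π (mo F (FreeMagma.of i))) =
        π (ev a (mo F (FreeMagma.of i))) := rfl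
    rw [this, ev_of, ha]
  · intro b
    obtain ⟨f, rfl⟩ := hsurj b
    obtain ⟨n, hn⟩ := hom_fin (A := Fr F ⧸ P) f
    refine ⟨n, fun Φ Ψ hΦ => ?_⟩
    exact hn (Φ.comp π) (Ψ.comp π) hΦ
  · intro x y
    obtain ⟨a, rfl⟩ := hsurj x
    obtain ⟨b, rfl⟩ := hsurj y
    rw [← sub_eq_zero, ← map_mul, ← map_mul, ← map_mul, ← map_mul, ← map_sub, hker]
    exact hP0 (alt1_P0 S a b)
  · intro x y
    obtain ⟨a, rfl⟩ := hsurj x
    obtain ⟨b, rfl⟩ := hsurj y
    rw [← sub_eq_zero, ← map_mul, ← map_mul, ← map_mul, ← map_mul, ← map_sub, hker]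
    exact hP0 (alt2_P0 S a b)
  · intro f hf φ
    choose a ha using fun i => hsurj (φ i)
    have e : φ = fun i => π (a i) := funext fun i => (ha i).symm
    change ev φ f = 0
    rw [e, ← ev_comp, hker]
    exact hP.2 _ f (hP0 (sub_P0 S hf))
  · intro I J hI hJ hIJ
    have key : ∀ K : Submodule F (Fr F ⧸ P), TIdeal F (Fr F ⧸ P) K → K ≠ ⊥ →
        TIdeal F (Fr F) (K.comap (π : Fr F →ₗ[F] (Fr F ⧸ P))) ∧
          ∃ n, mo F (dd n 0) ∈ K.comap (π : Fr F →ₗ[F] (Fr F ⧸ P)) := by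
      intro K hK hK0
      have h1 : TIdeal F (Fr F) (K.comap (π : Fr F →ₗ[F] (Fr F ⧸ P))) := by
        refine ⟨fun a ha b => ?_, fun Φ a ha => ?_⟩
        · have := hK.1 (π a) ha (π b)
          rw [← map_mul, ← map_mul] at this
          exact this
        · have := hK.2 (qmap P hP.1 Φ (fun b hb => hP.2 _ b hb)) (π a) ha
          exact this
      refine ⟨h1, hmax _ h1 ?_⟩
      refine lt_of_le_of_ne ?_ ?_
      · intro a ha
        have : π a = 0 := (hker a).mpr ha
        change π a ∈ K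
        rw [this]
        exact K.zero_mem
      · intro he
        apply hK0
        rw [eq_bot_iff]
        intro b hb
        obtain ⟨a, rfl⟩ := hsurj b
        have : a ∈ P := by rw [he]; exact hb
        exact (hker a).mpr this
    by_contra hcon
    push Not at hcon
    obtain ⟨hI1, n, hn⟩ := key I hI hcon.1
    obtain ⟨hJ1, m, hm⟩ := key J hJ hcon.2
    have h1 := D_le hI1 hn (max n m) (le_max_left _ _)
    have h2 := D_le hJ1 hm (max n m) (le_max_right _ _)
    have h3 := hJ1.2 (sh F (0 + 2 ^ (max n m))) _ h2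
    rw [sh_dd] at h3
    apply hPD (max n m + 1)
    rw [← hker, dd_succ, mo_mul, map_mul]
    exact hIJ _ h1 _ h3
  · rintro n ⟨V, hV0, hV, hVn⟩
    have key : ∀ k c, π (mo F (dd k c)) ∈ V k := by
      intro k
      induction k with
      | zero => intro c; rw [hV0]; trivial
      | succ k ih =>
        intro c
        rw [dd_succ, mo_mul, map_mul]
        exact hV k _ (ih _) _ (ih _)
    have := key n 0
    rw [hVn, Submodule.mem_bot, hker] at this
    exact hPD n this

end Pool.Agent.TP.H67
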