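import Pool.Agent.Helper28_TP.StS
import Pool.Agent.Helper28_TP.DyS

/-!
# DOM: independent points dominate a Bernoulli set of cells
-/

set_option autoImplicit false

namespace Pool.Agent.TP.H67

open MeasureTheory ProbabilityTheory

section Ops

variable {α : Type} [DecidableEq α]

/-- Indicator of the sets disjoint from `S`. -/
noncomputable def chi (S : Finset α) : Finset α → ℝ := fun A => if Disjoint S A then 1 else 0

/-- Every function of the trace on `V` is a combination of the functions `chi S`. -/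
theorem span (V : Finset α) : ∀ w : Finset α → ℝ,
    ∃ a : Finset α → ℝ, ∀ A, w (A ∩ V) = ∑ S ∈ V.powerset, a S * chi S A := by
  induction V using Finset.induction_on with
  | empty =>
    intro w
    refine ⟨fun _ => w ∅, fun A => ?_⟩
    simp [chi]
  | insert v V hv ih =>
    intro w
    obtain ⟨a1, h1⟩ := ih (fun A => w (insert v A))
    obtain ⟨a2, h2⟩ := ih (fun A => w A - w (insert v A))
    refine ⟨fun S => if v ∈ S then a2 (S.erase v) else a1 S, fun A => ?_⟩
    rw [Finset.sum_powerset_insert hv]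
    have e1 : ∑ S ∈ V.powerset, (if v ∈ S then a2 (S.erase v) else a1 S) * chi S A =
        w (insert v (A ∩ V)) := by
      rw [h1 A]
      refine Finset.sum_congr rfl fun S hS => ?_
      rw [if_neg (fun h => hv (Finset.mem_powerset.1 hS h))]
    have e2 : ∑ S ∈ V.powerset, (if v ∈ insert v S then a2 ((insert v S).erase v) else
        a1 (insert v S)) * chi (insert v S) A =
        (if v ∈ A then 0 else 1) * (w (A ∩ V) - w (insert v (A ∩ V))) := by
      rw [h2 A, Finset.mul_sum]
      refine Finset.sum_congr rfl fun S hS => ?_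
      have hvS : v ∉ S := fun h => hv (Finset.mem_powerset.1 hS h)
      rw [if_pos (Finset.mem_insert_self v S), Finset.erase_insert hvS]
      unfold chi
      by_cases hA : v ∈ A
      · have : ¬ Disjoint (insert v S) A := by
          rw [Finset.disjoint_insert_left]; exact fun h => h.1 hA
        rw [if_neg this, if_pos hA]; ring
      · rw [if_neg hA, one_mul]
        congr 1
        have : Disjoint (insert v S) A ↔ Disjoint S A := by
          rw [Finset.disjoint_insert_left]; exact ⟨fun h => h.2, fun h => ⟨hA, h⟩⟩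
        simp only [this]
    rw [e1, e2]
    by_cases hA : v ∈ A
    · rw [if_pos hA, Finset.inter_insert_of_mem hA]; ring
    · rw [if_neg hA, Finset.inter_insert_of_notMem hA]; ring

/-- Linear functionals that agree on all `chi S` agree on functions of the trace. -/
theorem funct_ext {V : Finset α} {F G : (Finset α → ℝ) →ₗ[ℝ] ℝ}
    (h : ∀ S ⊆ V, F (chi S) = G (chi S)) (w : Finset α → ℝ) :
    F (fun A => w (A ∩ V)) = G (fun A => w (A ∩ V)) := by
  obtain ⟨a, ha⟩ := span V w
  have e : (fun A => w (A ∩ V)) = ∑ S ∈ V.powerset, a S • chi S := by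
    funext A
    rw [ha A, Finset.sum_apply]
    rfl
  rw [e, map_sum, map_sum]
  refine Finset.sum_congr rfl fun S hS => ?_
  rw [map_smul, map_smul, h S (Finset.mem_powerset.1 hS)]

/-- Adding one random point. -/
noncomputable def top (V : Finset α) (r : α → ℝ) : Module.End ℝ (Finset α → ℝ) where
  toFun w := fun A => ∑ c ∈ V, r c * w (insert c A) + (1 - ∑ c ∈ V, r c) * w A
  map_add' w w' := by
    funext A
    simp only [Pi.add_apply, mul_add, Finset.sum_add_distrib]
    ring
  map_smul' t w := by
    funext A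
    simp only [Pi.smul_apply, smul_eq_mul, RingHom.id_apply, mul_add, Finset.mul_sum]
    congr 1
    · exact Finset.sum_congr rfl fun c _ => by ring
    · ring

theorem top_apply (V : Finset α) (r : α → ℝ) (w : Finset α → ℝ) (A : Finset α) :
    top V r w A = ∑ c ∈ V, r c * w (insert c A) + (1 - ∑ c ∈ V, r c) * w A := rfl

/-- Adding a random set. -/
noncomputable def qop (V : Finset α) (q : α → ℝ) : Module.End ℝ (Finset α → ℝ) where
  toFun w := fun A => EX V q (fun B => w (A ∪ B))
  map_add' w w' := by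
    funext A
    simp only [Pi.add_apply]
    exact EX_add _ _ _ _
  map_smul' t w := by
    funext A
    simp only [Pi.smul_apply, smul_eq_mul, RingHom.id_apply]
    exact EX_mul _ _ _ _

theorem qop_apply (V : Finset α) (q : α → ℝ) (w : Finset α → ℝ) (A : Finset α) :
    qop V q w A = EX V q (fun B => w (A ∪ B)) := rfl

theorem top_chi {V S : Finset α} (h : S ⊆ V) (r : α → ℝ) :
    top V r (chi S) = (1 - ∑ c ∈ S, r c) • chi S := by
  funext A
  rw [top_apply, Pi.smul_apply, smul_eq_mul]
  by_cases hd : Disjoint S A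
  · have h1 : chi S A = 1 := if_pos hd
    have h2 : ∀ c, r c * chi S (insert c A) = r c - (if c ∈ S then r c else 0) := by
      intro c
      unfold chi
      by_cases hc : c ∈ S
      · have : ¬ Disjoint S (insert c A) := by
          rw [Finset.disjoint_insert_right]; exact fun h => h.1 hc
        rw [if_neg this, if_pos hc]; ring
      · have : Disjoint S (insert c A) := by
          rw [Finset.disjoint_insert_right]; exact ⟨hc, hd⟩
        rw [if_pos this, if_neg hc]; ring
    rw [Finset.sum_congr rfl (fun c _ => h2 c), Finset.sum_sub_distrib, h1]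
    rw [← Finset.sum_filter, Finset.filter_mem_eq_inter, Finset.inter_eq_right.2 h]
    ring
  · have h1 : chi S A = 0 := if_neg hd
    have h2 : ∀ c, chi S (insert c A) = 0 := by
      intro c
      refine if_neg fun h => hd ?_
      rw [Finset.disjoint_insert_right] at h
      exact h.2
    simp [h1, h2]

theorem EX_chi {V S : Finset α} (h : S ⊆ V) (q : α → ℝ) :
    EX V q (chi S) = ∏ c ∈ S, (1 - q c) := by
  have h1 : ∀ A ⊆ V, chi S A = chi S (A ∩ S) := by
    intro A _
    unfold chi
    have : Disjoint S A ↔ Disjoint S (A ∩ S) := by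
      rw [Finset.disjoint_iff_inter_eq_empty, Finset.disjoint_iff_inter_eq_empty]
      have e : S ∩ (A ∩ S) = S ∩ A := by
        ext x; simp only [Finset.mem_inter]; tauto
      rw [e]
    simp only [this]
  rw [EX_marg' h q h1]
  unfold EX
  rw [Finset.sum_eq_single ∅]
  · unfold wt chi
    simp
  · intro A hA hne
    have : ¬ Disjoint S A := by
      intro hd
      apply hne
      rw [Finset.disjoint_iff_inter_eq_empty, Finset.inter_eq_right.2 (Finset.mem_powerset.1 hA)] at hd
      exact hd
    unfold chi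
    rw [if_neg this, mul_zero]
  · intro h0
    exact absurd (Finset.empty_mem_powerset S) h0

theorem qop_chi {V S : Finset α} (h : S ⊆ V) (q : α → ℝ) :
    qop V q (chi S) = (∏ c ∈ S, (1 - q c)) • chi S := by
  funext A
  rw [qop_apply, Pi.smul_apply, smul_eq_mul]
  by_cases hd : Disjoint S A
  · have h1 : chi S A = 1 := if_pos hd
    rw [h1, mul_one, ← EX_chi h]
    refine EX_congr (fun _ _ => rfl) fun B _ => ?_
    unfold chi
    have : Disjoint S (A ∪ B) ↔ Disjoint S B := by
      rw [Finset.disjoint_union_right]; exact ⟨fun h => h.2, fun h => ⟨hd, h⟩⟩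
    simp only [this]
  · have h1 : chi S A = 0 := if_neg hd
    rw [h1, mul_zero]
    have h2 : ∀ B, chi S (A ∪ B) = 0 := by
      intro B
      refine if_neg fun h => hd ?_
      rw [Finset.disjoint_union_right] at h
      exact h.1
    simp only [h2]
    exact EX_const _ _ _

/-- Decreasing functions with values in the unit interval. -/
structure Nice (w : Finset α → ℝ) : Prop where
  dec : ∀ A B, A ⊆ B → w B ≤ w A
  pos : ∀ A, 0 ≤ w A
  le : ∀ A, w A ≤ 1

theorem top_mono {V : Finset α} {r : α → ℝ} (h0 : ∀ c ∈ V, 0 ≤ r c) (h1 : ∑ c ∈ V, r c ≤ 1)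
    {w w' : Finset α → ℝ} (h : ∀ A, w A ≤ w' A) (A : Finset α) : top V r w A ≤ top V r w' A := by
  rw [top_apply, top_apply]
  refine add_le_add (Finset.sum_le_sum fun c hc => ?_) ?_
  · exact mul_le_mul_of_nonneg_left (h _) (h0 c hc)
  · exact mul_le_mul_of_nonneg_left (h _) (by linarith)

theorem top_const (V : Finset α) (r : α → ℝ) (t : ℝ) :
    top V r (fun _ => t) = fun _ => t := by
  funext A
  rw [top_apply, ← Finset.sum_mul]; ring

theorem top_add_const (V : Finset α) (r : α → ℝ) (w : Finset α → ℝ) (t : ℝ) (A : Finset α) :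
    top V r (fun B => w B + t) A = top V r w A + t := by
  have : (fun B => w B + t) = w + (fun _ => t) := rfl
  rw [this, map_add, top_const]; rfl

theorem top_nice {V : Finset α} {r : α → ℝ} (h0 : ∀ c ∈ V, 0 ≤ r c) (h1 : ∑ c ∈ V, r c ≤ 1)
    {w : Finset α → ℝ} (h : Nice w) : Nice (top V r w) := by
  refine ⟨fun A B hAB => ?_, fun A => ?_, fun A => ?_⟩
  · rw [top_apply, top_apply]
    refine add_le_add (Finset.sum_le_sum fun c hc => ?_) ?_
    · exact mul_le_mul_of_nonneg_left (h.dec _ _ (Finset.insert_subset_insert c hAB)) (h0 c hc)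
    · exact mul_le_mul_of_nonneg_left (h.dec _ _ hAB) (by linarith)
  · have := top_mono h0 h1 (w := fun _ => 0) (w' := w) h.pos A
    rwa [top_const] at this
  · have := top_mono h0 h1 (w := w) (w' := fun _ => 1) h.le A
    rwa [top_const] at this

theorem top_le_self {V : Finset α} {r : α → ℝ} (h0 : ∀ c ∈ V, 0 ≤ r c)
    {w : Finset α → ℝ} (h : Nice w) (A : Finset α) : top V r w A ≤ w A := by
  rw [top_apply]
  have : ∑ c ∈ V, r c * w (insert c A) ≤ ∑ c ∈ V, r c * w A :=
    Finset.sum_le_sum fun c hc =>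
      mul_le_mul_of_nonneg_left (h.dec _ _ (Finset.subset_insert c A)) (h0 c hc)
  rw [← Finset.sum_mul] at this
  linarith

/-- Larger weights give a smaller result for decreasing functions. -/
theorem top_anti {V : Finset α} {r f : α → ℝ} (hf : ∀ c ∈ V, f c ≤ r c)
    {w : Finset α → ℝ} (h : Nice w) (A : Finset α) : top V r w A ≤ top V f w A := by
  rw [top_apply, top_apply]
  have : ∑ c ∈ V, (r c - f c) * w (insert c A) ≤ ∑ c ∈ V, (r c - f c) * w A :=
    Finset.sum_le_sum fun c hc =>
      mul_le_mul_of_nonneg_left (h.dec _ _ (Finset.subset_insert c A)) (by linarith [hf c hc])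
  rw [← Finset.sum_mul, Finset.sum_sub_distrib] at this
  have e : ∑ c ∈ V, (r c - f c) * w (insert c A) =
      ∑ c ∈ V, r c * w (insert c A) - ∑ c ∈ V, f c * w (insert c A) := by
    rw [← Finset.sum_sub_distrib]
    exact Finset.sum_congr rfl fun c _ => by ring
  rw [e] at this
  linarith

theorem qop_nice {V : Finset α} {q : α → ℝ} (hq : U01 V q) {w : Finset α → ℝ} (h : Nice w) :
    Nice (qop V q w) := by
  refine ⟨fun A B hAB => ?_, fun A => ?_, fun A => ?_⟩
  · rw [qop_apply, qop_apply]
    exact EX_mono hq fun C _ => h.dec _ _ (Finset.union_subset_union_left hAB)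
  · rw [qop_apply]
    exact EX_nonneg hq fun C _ => h.pos _
  · rw [qop_apply]
    have := EX_mono hq (f := fun B => w (A ∪ B)) (g := fun _ => 1) fun C _ => h.le _
    rwa [EX_const] at this

theorem pow_nice {V : Finset α} {r : α → ℝ} (h0 : ∀ c ∈ V, 0 ≤ r c) (h1 : ∑ c ∈ V, r c ≤ 1)
    {w : Finset α → ℝ} (h : Nice w) (n : ℕ) : Nice ((top V r ^ n) w) := by
  induction n with
  | zero => simpa using h
  | succ n ih => rw [pow_succ', Module.End.mul_apply]; exact top_nice h0 h1 ih

theorem pow_anti {V : Finset α} {r : α → ℝ} (h0 : ∀ c ∈ V, 0 ≤ r c) (h1 : ∑ c ∈ V, r c ≤ 1)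
    {w : Finset α → ℝ} (h : Nice w) (A : Finset α) {m n : ℕ} (hmn : m ≤ n) :
    (top V r ^ n) w A ≤ (top V r ^ m) w A := by
  induction n, hmn using Nat.le_induction with
  | base => exact le_rfl
  | succ n _ ih =>
    rw [pow_succ', Module.End.mul_apply]
    exact (top_le_self h0 (pow_nice h0 h1 h n) A).trans ih

theorem pow_chi {V S : Finset α} (h : S ⊆ V) (r : α → ℝ) (n : ℕ) :
    (top V r ^ n) (chi S) = (1 - ∑ c ∈ S, r c) ^ n • chi S := by
  induction n with
  | zero => simp
  | succ n ih =>
    rw [pow_succ, Module.End.mul_apply, top_chi h, map_smul, ih, smul_smul, pow_succ]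
    congr 1
    ring

/-- Poissonization. -/
theorem hasSum_pow {V : Finset α} (f : α → ℝ) (μ : ℝ) (w : Finset α → ℝ) (A : Finset α) :
    HasSum (fun n : ℕ => Real.exp (-μ) * μ ^ n / (n.factorial : ℝ) *
      (top V f ^ n) (fun B => w (B ∩ V)) A)
      (qop V (fun c => 1 - Real.exp (-(μ * f c))) (fun B => w (B ∩ V)) A) := by
  obtain ⟨a, ha⟩ := span V w
  have e : (fun A => w (A ∩ V)) = ∑ S ∈ V.powerset, a S • chi S := by
    funext A
    rw [ha A, Finset.sum_apply]
    rfl
  rw [e]
  simp only [map_sum, Finset.sum_apply, Finset.mul_sum]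
  refine hasSum_sum fun S hS => ?_
  have hS' := Finset.mem_powerset.1 hS
  simp only [map_smul, qop_chi hS', pow_chi hS', Pi.smul_apply, smul_eq_mul]
  have h1 : HasSum (fun n : ℕ => Real.exp (-μ) * (μ * (1 - ∑ c ∈ S, f c)) ^ n /
      (n.factorial : ℝ)) (Real.exp (-μ) * Real.exp (μ * (1 - ∑ c ∈ S, f c))) := by
    have h2 := (NormedSpace.expSeries_div_hasSum_exp (μ * (1 - ∑ c ∈ S, f c))).mul_left
      (Real.exp (-μ))
    rw [← Real.exp_eq_exp_ℝ] at h2
    simpa only [mul_div_assoc] using h2
  have h3 := h1.mul_right (a S * chi S A)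
  have e2 : ∏ c ∈ S, (1 - (1 - Real.exp (-(μ * f c)))) =
      Real.exp (-μ) * Real.exp (μ * (1 - ∑ c ∈ S, f c)) := by
    rw [← Real.exp_add, mul_sub, Finset.mul_sum]
    have : -μ + (μ * 1 - ∑ c ∈ S, μ * f c) = ∑ c ∈ S, -(μ * f c) := by
      rw [Finset.sum_neg_distrib]; ring
    rw [this, Real.exp_sum]
    exact Finset.prod_congr rfl fun c _ => by ring
  rw [e2]
  have e3 : (fun n : ℕ => Real.exp (-μ) * (μ * (1 - ∑ c ∈ S, f c)) ^ n / (n.factorial : ℝ) *
      (a S * chi S A)) = fun n : ℕ => Real.exp (-μ) * μ ^ n / (n.factorial : ℝ) *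
        (a S * ((1 - ∑ c ∈ S, f c) ^ n * chi S A)) := by
    funext n
    rw [mul_pow]; ring
  have e4 : Real.exp (-μ) * Real.exp (μ * (1 - ∑ c ∈ S, f c)) * (a S * chi S A) =
      a S * (Real.exp (-μ) * Real.exp (μ * (1 - ∑ c ∈ S, f c)) * chi S A) := by ring
  rw [e3, e4] at h3
  exact h3

theorem poisson_tail (μ : ℝ) (hμ : 0 ≤ μ) (M : ℕ) :
    HasSum (fun n : ℕ => Real.exp (-μ) * μ ^ n / (n.factorial : ℝ) * (if M < n then 1 else 0))
      ((poissonMeasure (Real.toNNReal μ)).real {n | M < n}) := by
  have h1 := hasSum_integral_poissonMeasure (r := Real.toNNReal μ)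
    (f := fun n => Set.indicator {n : ℕ | M < n} (fun _ => (1 : ℝ)) n)
    ((integrable_const (1 : ℝ)).indicator .of_discrete)
  rw [integral_indicator .of_discrete] at h1
  simp only [integral_const, smul_eq_mul, mul_one, measureReal_restrict_apply_univ,
    Real.coe_toNNReal μ hμ] at h1
  have e : (fun n : ℕ => Real.exp (-μ) * μ ^ n / (n.factorial : ℝ) *
      Set.indicator {n : ℕ | M < n} (fun _ => (1 : ℝ)) n) = fun n : ℕ =>
        Real.exp (-μ) * μ ^ n / (n.factorial : ℝ) * (if M < n then 1 else 0) := by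
    funext n
    by_cases h : M < n
    · rw [if_pos h, Set.indicator_of_mem (by exact h)]
    · rw [if_neg h, Set.indicator_of_notMem (by exact h)]
  rw [e] at h1
  exact h1

theorem pow_le_qop {V : Finset α} {f : α → ℝ} (h0 : ∀ c ∈ V, 0 ≤ f c) (h1 : ∑ c ∈ V, f c ≤ 1)
    {μ : ℝ} (hμ : 0 ≤ μ) {w : Finset α → ℝ} (h : Nice w) (hV : ∀ A, w A = w (A ∩ V)) (M : ℕ)
    (A : Finset α) :
    (top V f ^ M) w A ≤ qop V (fun c => 1 - Real.exp (-(μ * f c))) w A +
      (poissonMeasure (Real.toNNReal μ)).real {n | M < n} := by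
  have e : w = fun B => w (B ∩ V) := funext hV
  have s1 := hasSum_pow (V := V) f μ w A
  rw [← e] at s1
  have s2 := poisson_tail μ hμ M
  have s3 := s1.add s2
  have s4 : HasSum (fun n : ℕ => Real.exp (-μ) * μ ^ n / (n.factorial : ℝ) *
      (top V f ^ M) w A) (1 * (top V f ^ M) w A) := by
    have h2 := (hasSum_one_poissonMeasure (Real.toNNReal μ)).mul_right ((top V f ^ M) w A)
    simpa only [Real.coe_toNNReal μ hμ] using h2
  rw [one_mul] at s4
  refine hasSum_le (fun n => ?_) s4 s3
  rw [← mul_add]
  refine mul_le_mul_of_nonneg_left ?_ (by positivity)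
  by_cases hn : M < n
  · rw [if_pos hn]
    have h2 := (pow_nice h0 h1 h M).le A
    have h3 := (pow_nice h0 h1 h n).pos A
    linarith
  · rw [if_neg hn, add_zero]
    exact pow_anti h0 h1 h A (not_lt.1 hn)

end Ops

section Lists

variable {α : Type} [DecidableEq α]

theorem prod_top_chi {V S : Finset α} (h : S ⊆ V) (rs : List (α → ℝ)) :
    ((rs.map (top V)).prod) (chi S) = ((rs.map (fun r => 1 - ∑ c ∈ S, r c)).prod) • chi S := by
  induction rs with
  | nil => simp
  | cons r rs ih =>
    rw [List.map_cons, List.prod_cons, Module.End.mul_apply, ih, map_smul, top_chi h, smul_smul,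
      List.map_cons, List.prod_cons, mul_comm]

theorem prod_top_mono {V : Finset α} (rs : List (α → ℝ)) (h0 : ∀ r ∈ rs, ∀ c ∈ V, 0 ≤ r c)
    (h1 : ∀ r ∈ rs, ∑ c ∈ V, r c ≤ 1) {w w' : Finset α → ℝ} (h : ∀ A, w A ≤ w' A)
    (A : Finset α) : (rs.map (top V)).prod w A ≤ (rs.map (top V)).prod w' A := by
  induction rs generalizing A with
  | nil => simpa using h A
  | cons r rs ih =>
    rw [List.map_cons, List.prod_cons, Module.End.mul_apply, Module.End.mul_apply]
    refine top_mono (h0 r List.mem_cons_self) (h1 r List.mem_cons_self) (fun B => ?_) A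
    exact ih (fun r hr => h0 r (List.mem_cons_of_mem _ hr))
      (fun r hr => h1 r (List.mem_cons_of_mem _ hr)) B

theorem prod_top_add {V : Finset α} (rs : List (α → ℝ)) (w : Finset α → ℝ) (t : ℝ)
    (A : Finset α) :
    (rs.map (top V)).prod (fun B => w B + t) A = (rs.map (top V)).prod w A + t := by
  induction rs generalizing A with
  | nil => simp
  | cons r rs ih =>
    rw [List.map_cons, List.prod_cons, Module.End.mul_apply, Module.End.mul_apply]
    have e : (rs.map (top V)).prod (fun B => w B + t) =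
        fun B => (rs.map (top V)).prod w B + t := funext ih
    rw [e, top_add_const]

theorem prod_top_le {V : Finset α} {f : α → ℝ} (hf0 : ∀ c ∈ V, 0 ≤ f c)
    (hf1 : ∑ c ∈ V, f c ≤ 1) (rs : List (α → ℝ)) (h0 : ∀ r ∈ rs, ∀ c ∈ V, f c ≤ r c)
    (h1 : ∀ r ∈ rs, ∑ c ∈ V, r c ≤ 1) {w : Finset α → ℝ} (h : Nice w) (A : Finset α) :
    (rs.map (top V)).prod w A ≤ (top V f ^ rs.length) w A := by
  induction rs generalizing A with
  | nil => simp
  | cons r rs ih =>
    rw [List.map_cons, List.prod_cons, Module.End.mul_apply, List.length_cons, pow_succ',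
      Module.End.mul_apply]
    have h0r := h0 r List.mem_cons_self
    refine (top_mono (fun c hc => (hf0 c hc).trans (h0r c hc)) (h1 r List.mem_cons_self)
      (fun B => ih (fun r hr => h0 r (List.mem_cons_of_mem _ hr))
      (fun r hr => h1 r (List.mem_cons_of_mem _ hr)) B) A).trans ?_
    exact top_anti h0r (pow_nice hf0 hf1 h _) A

theorem qop_trace {V : Finset α} (q : α → ℝ) {w : Finset α → ℝ} (hV : ∀ A, w A = w (A ∩ V))
    (A : Finset α) : qop V q w A = qop V q w (A ∩ V) := by
  rw [qop_apply, qop_apply]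
  refine EX_congr (fun _ _ => rfl) fun B _ => ?_
  rw [hV (A ∪ B), hV (A ∩ V ∪ B)]
  congr 1
  ext x
  simp only [Finset.mem_inter, Finset.mem_union]
  tauto

theorem prod_qop_chi {V S : Finset α} (h : S ⊆ V) (qs : List (α → ℝ)) :
    ((qs.map (qop V)).prod) (chi S) = ((qs.map (fun q => ∏ c ∈ S, (1 - q c))).prod) • chi S := by
  induction qs with
  | nil => simp
  | cons r rs ih =>
    rw [List.map_cons, List.prod_cons, Module.End.mul_apply, ih, map_smul, qop_chi h, smul_smul,
      List.map_cons, List.prod_cons, mul_comm]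

theorem prod_qop_nice {V : Finset α} (qs : List (α → ℝ)) (hq : ∀ q ∈ qs, U01 V q)
    {w : Finset α → ℝ} (h : Nice w) (hV : ∀ A, w A = w (A ∩ V)) :
    Nice ((qs.map (qop V)).prod w) ∧
      ∀ A, (qs.map (qop V)).prod w A = (qs.map (qop V)).prod w (A ∩ V) := by
  induction qs with
  | nil => exact ⟨by simpa using h, by simpa using hV⟩
  | cons q qs ih =>
    obtain ⟨h1, h2⟩ := ih (fun r hr => hq r (List.mem_cons_of_mem _ hr))
    rw [List.map_cons, List.prod_cons]
    refine ⟨?_, fun A => ?_⟩
    · rw [Module.End.mul_apply]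
      exact qop_nice (hq q List.mem_cons_self) h1
    · rw [Module.End.mul_apply]
      exact qop_trace q h2 A

/-- The comparison for several boxes. -/
theorem main_le {ι : Type} {V : Finset α} {μ : ℝ} (hμ : 0 ≤ μ) {M : ℕ} (f : ι → α → ℝ)
    (rs : ι → List (α → ℝ)) (hlen : ∀ b, (rs b).length = M) (hf0 : ∀ b, ∀ c, 0 ≤ f b c)
    (hf1 : ∀ b, ∑ c ∈ V, f b c ≤ 1) (h0 : ∀ b, ∀ r ∈ rs b, ∀ c ∈ V, f b c ≤ r c)
    (h1 : ∀ b, ∀ r ∈ rs b, ∑ c ∈ V, r c ≤ 1) {w : Finset α → ℝ} (h : Nice w)
    (hV : ∀ A, w A = w (A ∩ V)) (l : List ι) (A : Finset α) :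
    (l.map (fun b => ((rs b).map (top V)).prod)).prod w A ≤
      ((l.map (fun b c => 1 - Real.exp (-(μ * f b c)))).map (qop V)).prod w A +
        l.length * (poissonMeasure (Real.toNNReal μ)).real {n | M < n} := by
  set π : ℝ := (poissonMeasure (Real.toNNReal μ)).real {n | M < n} with hπ
  have hU : ∀ b, U01 V (fun c => 1 - Real.exp (-(μ * f b c))) := by
    intro b c _
    have h2 : 0 < Real.exp (-(μ * f b c)) := Real.exp_pos _
    have h3 : Real.exp (-(μ * f b c)) ≤ 1 := by
      rw [Real.exp_le_one_iff]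
      have := mul_nonneg hμ (hf0 b c)
      linarith
    exact ⟨by linarith, by linarith⟩
  induction l generalizing A with
  | nil => simp
  | cons b l ih =>
    obtain ⟨n1, n2⟩ := prod_qop_nice (V := V)
      (l.map (fun b c => 1 - Real.exp (-(μ * f b c)))) (by
        intro q hq
        rw [List.mem_map] at hq
        obtain ⟨b, _, rfl⟩ := hq
        exact hU b) h hV
    set W := ((l.map (fun b c => 1 - Real.exp (-(μ * f b c)))).map (qop V)).prod w with hW
    simp only [List.map_cons, List.prod_cons, Module.End.mul_apply, List.length_cons]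
    rw [← hW]
    have s1 := prod_top_mono (V := V) (rs b)
      (fun r hr c hc => (hf0 b c).trans (h0 b r hr c hc)) (h1 b) (w' := fun B => W B + l.length * π)
      (fun B => ih B) A
    rw [prod_top_add] at s1
    have s2 := prod_top_le (V := V) (fun c _ => hf0 b c) (hf1 b) (rs b) (h0 b) (h1 b) n1 A
    rw [hlen b] at s2
    have s3 := pow_le_qop (V := V) (fun c _ => hf0 b c) (hf1 b) hμ n1 n2 M A
    rw [← hπ] at s3
    push_cast
    linarith

end Lists

open Classical in
theorem dom (h1 : PsmStmt) (_h2 : VoiStmt) : DomStmt := by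
  intro Ω _ P _ ι α _ _ M Y V f μ p hm hind hf0 hf1 hfY hμ hp0 hp1 hp E hE
  set u : Finset α → ℝ := fun A => if E (A ∩ V) then 0 else 1 with hu
  set rr : ι × Fin M → α → ℝ := fun x c => P.real {ω | Y x ω = some c} with hrr
  set O : Ω → Finset α := fun ω => V.filter (fun c => ∃ x, Y x ω = some c) with hO
  -- sums of probabilities of values
  have hsum : ∀ x, ∀ S : Finset α, P.real {ω | ∃ c ∈ S, Y x ω = some c} = ∑ c ∈ S, rr x c := by
    intro x S
    have e : {ω | ∃ c ∈ S, Y x ω = some c} = ⋃ c ∈ S, {ω | Y x ω = some c} := by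
      ext ω; simp
    rw [e, measureReal_biUnion_finset]
    · intro c _ c' _ hne
      rw [Function.onFun, Set.disjoint_left]
      intro ω h1 h2
      simp only [Set.mem_ofPred_eq] at h1 h2
      rw [h1] at h2
      exact hne (Option.some_injective _ h2)
    · intro c _
      exact hm x c
  have hsum1 : ∀ x, ∑ c ∈ V, rr x c ≤ 1 := by
    intro x
    rw [← hsum]
    exact measureReal_le_one
  have hnice : Nice u := by
    refine ⟨fun A B hAB => ?_, fun A => ?_, fun A => ?_⟩
    · simp only [hu]
      by_cases h : E (A ∩ V)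
      · rw [if_pos h, if_pos (hE _ _ (Finset.inter_subset_inter_right hAB) h)]
      · rw [if_neg h]; split_ifs <;> norm_num
    · simp only [hu]; split_ifs <;> norm_num
    · simp only [hu]; split_ifs <;> norm_num
  have htr : ∀ A, u A = u (A ∩ V) := by
    intro A
    simp only [hu]
    rw [Finset.inter_assoc, Finset.inter_self]
  have hmain := main_le (V := V) hμ (M := M) f
    (fun b => (List.finRange M).map (fun i => rr (b, i)))
    (fun b => by simp) hf0 hf1
    (by
      intro b r hr c hc
      rw [List.mem_map] at hr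
      obtain ⟨i, _, rfl⟩ := hr
      exact hfY (b, i) c hc)
    (by
      intro b r hr
      rw [List.mem_map] at hr
      obtain ⟨i, _, rfl⟩ := hr
      exact hsum1 (b, i)) hnice htr (Finset.univ.toList) ∅
  have hlen : ((Finset.univ : Finset ι).toList.length : ℝ) = Fintype.card ι := by
    rw [Finset.length_toList, Finset.card_univ]
  rw [hlen] at hmain
  -- the law of `O`
  have hOm : ∀ A : Finset α, MeasurableSet {ω | O ω = A} := by
    intro A
    have e : {ω | O ω = A} = ⋂ c ∈ V ∪ A, {ω | c ∈ O ω ↔ c ∈ A} := by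
      ext ω
      simp only [Set.mem_iInter, Set.mem_ofPred_eq]
      constructor
      · intro h c _
        rw [h]
      · intro h
        ext c
        by_cases hc : c ∈ V ∪ A
        · exact h c hc
        · rw [Finset.mem_union, not_or] at hc
          simp only [hO, Finset.mem_filter]
          exact ⟨fun h => absurd h.1 hc.1, fun h => absurd h hc.2⟩
    rw [e]
    refine Finset.measurableSet_biInter _ fun c _ => ?_
    have hc : MeasurableSet {ω | c ∈ O ω} := by
      by_cases hcV : c ∈ V
      · have e2 : {ω | c ∈ O ω} = ⋃ x, {ω | Y x ω = some c} := by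
          ext ω
          simp only [hO, Finset.mem_filter, Set.mem_ofPred_eq, Set.mem_iUnion]
          exact ⟨fun h => h.2, fun h => ⟨hcV, h⟩⟩
        rw [e2]
        exact MeasurableSet.iUnion fun x => hm x c
      · have e2 : {ω | c ∈ O ω} = ∅ := by
          ext ω
          simp only [hO, Finset.mem_filter, Set.mem_ofPred_eq, Set.mem_empty_iff_false, iff_false]
          exact fun h => hcV h.1
        rw [e2]
        exact MeasurableSet.empty
    by_cases hA : c ∈ A
    · simpa only [hA, iff_true] using hc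
    · have e3 : {ω | c ∈ O ω ↔ c ∈ A} = {ω | c ∈ O ω}ᶜ := by
        ext ω
        simp [hA]
      rw [e3]
      exact hc.compl
  have hlaw : ∀ Φ : Finset α → Prop, P.real {ω | Φ (O ω)} =
      ∑ A ∈ V.powerset, P.real {ω | O ω = A} * (if Φ A then 1 else 0) := by
    intro Φ
    have e : {ω | Φ (O ω)} = ⋃ A ∈ V.powerset.filter Φ, {ω | O ω = A} := by
      ext ω
      simp only [Set.mem_ofPred_eq, Set.mem_iUnion, Finset.mem_filter, exists_prop]
      constructor
      · intro h
        exact ⟨O ω, ⟨Finset.mem_powerset.2 (Finset.filter_subset _ _), h⟩, rfl⟩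
      · rintro ⟨A, ⟨_, h⟩, rfl⟩
        exact h
    rw [e, measureReal_biUnion_finset]
    · rw [Finset.sum_filter]
      refine Finset.sum_congr rfl fun A _ => ?_
      split_ifs <;> simp
    · intro A _ B _ hne
      rw [Function.onFun, Set.disjoint_left]
      intro ω h1 h2
      exact hne (h1.symm.trans h2)
    · intro A _
      exact hOm A
  let F1 : (Finset α → ℝ) →ₗ[ℝ] ℝ :=
    ∑ A ∈ V.powerset, (P.real {ω | O ω = A}) • (LinearMap.proj A)
  have hF1 : ∀ w : Finset α → ℝ, F1 w = ∑ A ∈ V.powerset, P.real {ω | O ω = A} * w A := by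
    intro w
    simp only [F1, LinearMap.sum_apply, LinearMap.smul_apply, LinearMap.proj_apply, smul_eq_mul]
  let F2 : (Finset α → ℝ) →ₗ[ℝ] ℝ := (LinearMap.proj ∅).comp
    ((Finset.univ : Finset ι).toList.map (fun b =>
      (((List.finRange M).map (fun i => rr (b, i))).map (top V)).prod)).prod
  let F3 : (Finset α → ℝ) →ₗ[ℝ] ℝ := (LinearMap.proj ∅).comp
    (((Finset.univ : Finset ι).toList.map
      (fun b c => 1 - Real.exp (-(μ * f b c)))).map (qop V)).prod
  let F4 : (Finset α → ℝ) →ₗ[ℝ] ℝ := (LinearMap.proj ∅).comp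
    (qop V (fun c => 1 - Real.exp (-(μ * ∑ b, f b c))))
  have hdisj : ∀ S ⊆ V, P.real {ω | Disjoint S (O ω)} = ∏ x, (1 - ∑ c ∈ S, rr x c) := by
    intro S hS
    have e : {ω | Disjoint S (O ω)} =
        {ω | ∀ x ∈ (Finset.univ : Finset (ι × Fin M)), Y x ω ∈ {o | ∀ c ∈ S, o ≠ some c}} := by
      ext ω
      simp only [Set.mem_ofPred_eq, Finset.mem_univ, forall_true_left]
      rw [Finset.disjoint_left]
      constructor
      · intro h x c hc hx
        exact h hc (by simp only [hO, Finset.mem_filter]; exact ⟨hS hc, x, hx⟩)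
      · intro h c hc hcO
        simp only [hO, Finset.mem_filter] at hcO
        obtain ⟨_, x, hx⟩ := hcO
        exact h x c hc hx
    rw [e, hind Finset.univ (fun _ => {o | ∀ c ∈ S, o ≠ some c})]
    refine Finset.prod_congr rfl fun x _ => ?_
    rw [← hsum x S]
    have e2 : {ω | Y x ω ∈ {o | ∀ c ∈ S, o ≠ some c}} = {ω | ∃ c ∈ S, Y x ω = some c}ᶜ := by
      ext ω
      simp
    rw [e2, probReal_compl_eq_one_sub]
    have e3 : {ω | ∃ c ∈ S, Y x ω = some c} = ⋃ c ∈ S, {ω | Y x ω = some c} := by
      ext ω; simp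
    rw [e3]
    exact Finset.measurableSet_biUnion _ fun c _ => hm x c
  have hchi0 : ∀ S : Finset α, chi S ∅ = 1 := fun S => if_pos (Finset.disjoint_empty_right S)
  have h12 : F1 u = F2 u := by
    have key := funct_ext (V := V) (F := F1) (G := F2) (by
      intro S hS
      rw [hF1]
      have e1 : ∑ A ∈ V.powerset, P.real {ω | O ω = A} * chi S A =
          P.real {ω | Disjoint S (O ω)} := by
        rw [hlaw (fun A => Disjoint S A)]
        refine Finset.sum_congr rfl fun A _ => ?_
        unfold chi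
        by_cases h : Disjoint S A <;> simp [h]
      rw [e1, hdisj S hS]
      have e2 : ∀ l : List ι, (l.map (fun b =>
          (((List.finRange M).map (fun i => rr (b, i))).map (top V)).prod)).prod (chi S) =
          ((l.map (fun b => ∏ i : Fin M, (1 - ∑ c ∈ S, rr (b, i) c))).prod) • chi S := by
        intro l
        induction l with
        | nil => simp
        | cons b l ih =>
          simp only [List.map_cons, List.prod_cons, Module.End.mul_apply]
          rw [ih, map_smul, prod_top_chi hS, smul_smul, mul_comm]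
          congr 2
          rw [List.map_map, Fin.prod_univ_def]
          rfl
      simp only [F2, LinearMap.comp_apply, LinearMap.proj_apply]
      rw [e2, Pi.smul_apply, hchi0, smul_eq_mul, mul_one, Finset.prod_map_toList,
        Fintype.prod_prod_type]) u
    have e : (fun A => u (A ∩ V)) = u := funext fun A => (htr A).symm
    rwa [e] at key
  have h34 : F3 u = F4 u := by
    have key := funct_ext (V := V) (F := F3) (G := F4) (by
      intro S hS
      simp only [F3, F4, LinearMap.comp_apply, LinearMap.proj_apply]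
      rw [prod_qop_chi hS, qop_chi hS, Pi.smul_apply, Pi.smul_apply, hchi0, smul_eq_mul,
        smul_eq_mul, mul_one, mul_one, List.map_map, Finset.prod_map_toList]
      simp only [Function.comp]
      rw [Finset.prod_comm]
      refine Finset.prod_congr rfl fun c _ => ?_
      simp only [sub_sub_cancel]
      rw [← Real.exp_sum, Finset.mul_sum, Finset.sum_neg_distrib]) u
    have e : (fun A => u (A ∩ V)) = u := funext fun A => (htr A).symm
    rwa [e] at key
  have hL : P.real {ω | ¬ E (O ω)} = F1 u := by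
    rw [hF1, hlaw (fun A => ¬ E A)]
    refine Finset.sum_congr rfl fun A hA => ?_
    have hA' : A ∩ V = A := Finset.inter_eq_left.2 (Finset.mem_powerset.1 hA)
    simp only [hu, hA']
    by_cases h : E A <;> simp [h]
  have hR : F4 u = PS V (fun c => 1 - Real.exp (-(μ * ∑ b, f b c))) (fun A => ¬ E A) := by
    rw [PS_def]
    simp only [F4, LinearMap.comp_apply, LinearMap.proj_apply]
    rw [qop_apply]
    refine EX_congr (fun _ _ => rfl) fun A hA => ?_
    have hA' : A ∩ V = A := Finset.inter_eq_left.2 hA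
    simp only [hu, Finset.empty_union, hA']
    by_cases h : E A <;> simp [h]
  have hU1 : U01 V (fun _ => p) := fun _ _ => ⟨hp0, hp1.le⟩
  have hU2 : U01 V (fun c => 1 - Real.exp (-(μ * ∑ b, f b c))) := by
    intro c _
    have h2 : 0 < Real.exp (-(μ * ∑ b, f b c)) := Real.exp_pos _
    have h3 : Real.exp (-(μ * ∑ b, f b c)) ≤ 1 := by
      rw [Real.exp_le_one_iff]
      have h5 : 0 ≤ ∑ b, f b c := Finset.sum_nonneg fun b _ => hf0 b c
      have := mul_nonneg hμ h5
      linarith
    exact ⟨by linarith, by linarith⟩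
  have hpsm := h1 α V (fun _ => p) (fun c => 1 - Real.exp (-(μ * ∑ b, f b c))) hU1 hU2 hp E hE
  have hfin : PS V (fun c => 1 - Real.exp (-(μ * ∑ b, f b c))) (fun A => ¬ E A) ≤
      PS V (fun _ => p) (fun A => ¬ E A) := by
    rw [PS_not, PS_not]; linarith
  have hmain2 : F2 u ≤ F3 u + Fintype.card ι * (poissonMeasure (Real.toNNReal μ)).real {n | M < n} :=
    hmain
  have hgoal : P.real {ω | ¬ E (O ω)} ≤ PS V (fun _ => p) (fun A => ¬ E A) +
      Fintype.card ι * (poissonMeasure (Real.toNNReal μ)).real {n | M < n} := by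
    rw [hL, h12]
    rw [h34, hR] at hmain2
    linarith
  exact hgoal

end Pool.Agent.TP.H67
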