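import Pool.Agent.Helper67_TP.DynA

/-!
# DYN: typical structures of all scales are present at most times
-/

set_option autoImplicit false

namespace Pool.Agent.TP.H67

open MeasureTheory ProbabilityTheory

section Count

theorem card_blocks (A a : ℕ) (ha : a ≤ A) (Q : ℕ → Prop) [DecidablePred Q] :
    ((Finset.Ico (2 ^ A) (2 ^ (A + 1))).filter (fun q => Q (q / 2 ^ a))).card ≤
      2 ^ a * ((Finset.Ico (2 ^ (A - a)) (2 ^ (A - a + 1))).filter Q).card := by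
  refine Finset.card_le_mul_card_image_of_maps_to (f := fun q => q / 2 ^ a) ?_ (2 ^ a) ?_
  · intro q hq
    rw [Finset.mem_filter, Finset.mem_Ico] at hq ⊢
    obtain ⟨⟨h1, h2⟩, h3⟩ := hq
    refine ⟨⟨?_, ?_⟩, h3⟩
    · rw [Nat.le_div_iff_mul_le (by positivity), ← pow_add, Nat.sub_add_cancel ha]
      exact h1
    · rw [Nat.div_lt_iff_lt_mul (by positivity), ← pow_add]
      have : A - a + 1 + a = A + 1 := by omega
      rw [this]
      exact h2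
  · intro j _
    have hsub : (((Finset.Ico (2 ^ A) (2 ^ (A + 1))).filter (fun q => Q (q / 2 ^ a))).filter
        (fun q => q / 2 ^ a = j)) ⊆ Finset.Ico (j * 2 ^ a) ((j + 1) * 2 ^ a) := by
      intro q hq
      rw [Finset.mem_filter] at hq
      rw [Finset.mem_Ico, ← hq.2]
      exact ⟨Nat.div_mul_le_self q _, Nat.lt_mul_of_div_lt (Nat.lt_succ_self _) (by positivity)⟩
    refine (Finset.card_le_card hsub).trans (le_of_eq ?_)
    rw [Nat.card_Ico, Nat.add_mul, one_mul, Nat.add_sub_cancel_left]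

theorem card_bx {k : ℕ} (b : Pt k) (n : ℕ) : (bx b n).card = (2 * n + 1) ^ (k + 2) := by
  unfold bx
  rw [Pi.card_Icc]
  have : ∀ i : Fin (k + 2), (Finset.Icc (b i - n) (b i + n)).card = 2 * n + 1 := by
    intro i
    rw [Int.card_Icc]
    omega
  simp only [this, Finset.prod_const, Finset.card_univ, Fintype.card_fin]

theorem bx_mono {k : ℕ} (b : Pt k) {m n : ℕ} (h : m ≤ n) : bx b m ⊆ bx b n := by
  intro x hx
  rw [mem_bx] at hx ⊢
  intro i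
  refine (hx i).trans ?_
  exact_mod_cast h

end Count

section Events

variable {k : ℕ}

open Classical in
/-- The boxes of the block `(a, j)`. -/
noncomputable def Bo (w : ℕ → Sp k) (κ : ℕ → ℝ) (N : ℕ → ℕ) (a j : ℕ) : Finset (Sp k) :=
  (Finset.Ico (j * 2 ^ a) ((j + 1) * 2 ^ a) ×ˢ bx (0 : Pt k) (N a)).image
    (fun x => fun i => w x.1 i + κ a * x.2 i)

theorem card_Bo (w : ℕ → Sp k) (κ : ℕ → ℝ) (N : ℕ → ℕ) (a j : ℕ) :
    (Bo w κ N a j).card ≤ 2 ^ a * (2 * N a + 1) ^ (k + 2) := by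
  classical
  unfold Bo
  refine Finset.card_image_le.trans ?_
  rw [Finset.card_product, Nat.card_Ico, card_bx, Nat.add_mul, one_mul, Nat.add_sub_cancel_left]

/-- The block `(a, j)` has dense boxes but some structure is missing. -/
def Ev (lam ε κ₀ h : ℝ) (τ L : ℕ) (w : ℕ → Sp k) (N : ℕ → ℕ) (𝒱 : ℕ → ℕ → Set (Pt k) → Prop)
    (a j : ℕ) : Set (Cf k) :=
  {ω | (1 ≤ j ∧ ∀ y ∈ Bo w (fun a => side κ₀ a τ) N a j, ¬ spa lam ε κ₀ τ a j y ω) ∧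
    ∃ q ∈ Finset.Ico (j * 2 ^ a) ((j + 1) * 2 ^ a),
      ∃ l ∈ Finset.Ico (L * 2 ^ a) (L * 2 ^ (a + 1)), ¬ 𝒱 l q (occ h (w q) (q * τ) ω)}

theorem Ev_meas (hM : MeasStmt) (lam ε κ₀ h : ℝ) (τ L : ℕ) (w : ℕ → Sp k) (N : ℕ → ℕ)
    (𝒱 : ℕ → ℕ → Set (Pt k) → Prop) (CR : ℕ) (hV : ∀ l ≥ L, ∀ q, MonoLoc (CR * 2 ^ l) (𝒱 l q))
    (a j : ℕ) : MeasurableSet (Ev lam ε κ₀ h τ L w N 𝒱 a j) := by
  obtain ⟨_, h2, h3, _⟩ := hM k
  have e : Ev lam ε κ₀ h τ L w N 𝒱 a j = ({_ω | 1 ≤ j} ∩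
      ⋂ y ∈ Bo w (fun a => side κ₀ a τ) N a j, {ω | spa lam ε κ₀ τ a j y ω}ᶜ) ∩
      ⋃ q ∈ Finset.Ico (j * 2 ^ a) ((j + 1) * 2 ^ a),
      ⋃ l ∈ Finset.Ico (L * 2 ^ a) (L * 2 ^ (a + 1)),
        {ω | 𝒱 l q (occ h (w q) (q * τ) ω)}ᶜ := by
    ext ω
    simp only [Ev, Set.mem_ofPred_eq, Set.mem_inter_iff, Set.mem_iInter, Set.mem_iUnion,
      Set.mem_compl_iff, exists_prop]
  rw [e]
  refine (MeasurableSet.inter (MeasurableSet.const _) ?_).inter ?_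
  · refine Finset.measurableSet_biInter _ fun y _ => MeasurableSet.compl ?_
    have e2 : {ω : Cf k | spa lam ε κ₀ τ a j y ω} = {ω | many y (side κ₀ a τ)
        ((j - 1) * 2 ^ a * τ) ω ⌈(1 - ε) * lam * side κ₀ a τ ^ (k + 2)⌉₊}ᶜ := by
      ext ω
      simp only [spa, Set.mem_ofPred_eq, Set.mem_compl_iff]
    rw [e2]
    exact (h2 _ _ _ _).compl
  · refine Finset.measurableSet_biUnion _ fun q _ => Finset.measurableSet_biUnion _ fun l hl => ?_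
    have hlL : L ≤ l := by
      rw [Finset.mem_Ico] at hl
      exact (Nat.le_mul_of_pos_right L (by positivity)).trans hl.1
    exact (h3 h (w q) (q * τ) _ _ (hV l hlL q)).compl

theorem Ev_glue (lam ε κ₀ h : ℝ) (τ L : ℕ) (w : ℕ → Sp k) (N : ℕ → ℕ)
    (𝒱 : ℕ → ℕ → Set (Pt k) → Prop) (a j : ℕ) (ω ω₂ : Cf k) :
    glue ((j + 1) * 2 ^ a * τ) (ω, ω₂) ∈ Ev lam ε κ₀ h τ L w N 𝒱 a j ↔
      ω ∈ Ev lam ε κ₀ h τ L w N 𝒱 a j := by
  have h1 : (j - 1) * 2 ^ a * τ ≤ (j + 1) * 2 ^ a * τ := by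
    gcongr
    omega
  have h2 : ∀ y, spa lam ε κ₀ τ a j y (glue ((j + 1) * 2 ^ a * τ) (ω, ω₂)) ↔
      spa lam ε κ₀ τ a j y ω := by
    intro y
    unfold spa
    rw [many_glue _ _ _ h1]
  have h3 : ∀ q ∈ Finset.Ico (j * 2 ^ a) ((j + 1) * 2 ^ a),
      occ h (w q) (q * τ) (glue ((j + 1) * 2 ^ a * τ) (ω, ω₂)) = occ h (w q) (q * τ) ω := by
    intro q hq
    refine occ_glue _ _ ?_ _ _
    exact Nat.mul_le_mul_right τ (Finset.mem_Ico.1 hq).2.le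
  simp only [Ev, Set.mem_ofPred_eq, h2]
  constructor
  · rintro ⟨h4, q, hq, l, hl, h5⟩
    rw [h3 q hq] at h5
    exact ⟨h4, q, hq, l, hl, h5⟩
  · rintro ⟨h4, q, hq, l, hl, h5⟩
    rw [← h3 q hq] at h5
    exact ⟨h4, q, hq, l, hl, h5⟩

/-- The conclusion of RF for given constants. -/
def RfC (k : ℕ) (lam s h p ε κ₀ c₃ : ℝ) (Cm : ℕ) : Prop :=
  ∀ (T Δ R : ℕ) (κ : ℝ) (w : Sp k) (ω₁ : Cf k), 1 ≤ Δ → 0 < κ →
      κ ≤ κ₀ * Real.sqrt Δ → κ₀ * Real.sqrt Δ ≤ 2 * κ →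
      (∀ j ∈ bx (0 : Pt k) (⌈h * (R + 1) / κ⌉₊ + Cm),
        many (fun a => w a + κ * j a) κ T ω₁ ⌈(1 - ε) * lam * κ ^ (k + 2)⌉₊) →
      ∀ E : Set (Pt k) → Prop, MonoLoc R E →
        (confLaw k lam s).real {ω₂ | ¬ E (occ h w (T + Δ) (glue T (ω₁, ω₂)))} ≤
          PS (bx (0 : Pt k) R) (fun _ => p) (fun A => ¬ E ↑A) +
            (2 * (⌈h * (R + 1) / κ⌉₊ + Cm : ℕ) + 1) ^ (k + 2) * Real.exp (-(c₃ * κ ^ (k + 2)))

theorem Ev_cond {lam s h p ε κ₀ c₃ cp : ℝ} {Cm CR : ℕ} (hh : 0 < h) (hκ₀ : 0 < κ₀)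
    (hcp : 0 < cp) (hRF : RfC k lam s h p ε κ₀ c₃ Cm) {τ L : ℕ} (hτ : 1 ≤ τ)
    {w : ℕ → Sp k} {𝒱 : ℕ → ℕ → Set (Pt k) → Prop}
    (hV : ∀ l ≥ L, ∀ q, MonoLoc (CR * 2 ^ l) (𝒱 l q) ∧
      PS (bx (0 : Pt k) (CR * 2 ^ l)) (fun _ => p) (fun O => ¬ 𝒱 l q ↑O) ≤
        Real.exp (-(cp * ((l : ℝ) + 1) ^ 2)))
    {N : ℕ → ℕ} (hN : ∀ a, N a = ⌈h * ((CR * 2 ^ (L * 2 ^ (a + 1)) : ℕ) + 1) / side κ₀ a τ⌉₊ + Cm)
    {a : ℕ} {π : ℝ} (hπ0 : 0 ≤ π)
    (hπ : 2 ^ a * ((L : ℝ) * 2 ^ a) * (Real.exp (-(cp * ((L : ℝ) * 2 ^ a) ^ 2)) +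
      (2 * (N a : ℝ) + 1) ^ (k + 2) * Real.exp (-(c₃ * side κ₀ a τ ^ (k + 2)))) ≤ π)
    (j : ℕ) (ω₁ : Cf k) :
    (confLaw k lam s).real {ω₂ | glue ((j - 1) * 2 ^ a * τ) (ω₁, ω₂) ∈
      Ev lam ε κ₀ h τ L w N 𝒱 a j} ≤ π := by
  have hprob := isProb_conf k lam s
  by_cases hd : 1 ≤ j ∧ ∀ y ∈ Bo w (fun a => side κ₀ a τ) N a j, ¬ spa lam ε κ₀ τ a j y ω₁
  swap
  · have e : {ω₂ | glue ((j - 1) * 2 ^ a * τ) (ω₁, ω₂) ∈ Ev lam ε κ₀ h τ L w N 𝒱 a j} = ∅ := by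
      rw [Set.eq_empty_iff_forall_notMem]
      intro ω₂ hω
      simp only [Set.mem_ofPred_eq, Ev] at hω
      refine hd ⟨hω.1.1, fun y hy hs => hω.1.2 y hy ?_⟩
      unfold spa at hs ⊢
      rw [many_glue _ _ _ le_rfl]
      exact hs
    rw [e, measureReal_empty]
    exact hπ0
  obtain ⟨hj, hd⟩ := hd
  obtain ⟨j, rfl⟩ : ∃ i, j = i + 1 := ⟨j - 1, by omega⟩
  have ej : j + 1 - 1 = j := rfl
  rw [ej]
  set T := j * 2 ^ a * τ with hT
  have hsub : {ω₂ | glue T (ω₁, ω₂) ∈ Ev lam ε κ₀ h τ L w N 𝒱 a (j + 1)} ⊆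
      ⋃ q ∈ Finset.Ico ((j + 1) * 2 ^ a) ((j + 1 + 1) * 2 ^ a),
        ⋃ l ∈ Finset.Ico (L * 2 ^ a) (L * 2 ^ (a + 1)),
          {ω₂ | ¬ 𝒱 l q (occ h (w q) (q * τ) (glue T (ω₁, ω₂)))} := by
    intro ω₂ hω
    simp only [Set.mem_ofPred_eq, Ev] at hω
    obtain ⟨_, q, hq, l, hl, h5⟩ := hω
    simp only [Set.mem_iUnion, Set.mem_ofPred_eq]
    exact ⟨q, hq, l, hl, h5⟩
  have hκ : 0 < side κ₀ a τ := by
    unfold side
    have : (0 : ℝ) < τ := by exact_mod_cast hτ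
    positivity
  have hone : ∀ q ∈ Finset.Ico ((j + 1) * 2 ^ a) ((j + 1 + 1) * 2 ^ a),
      ∀ l ∈ Finset.Ico (L * 2 ^ a) (L * 2 ^ (a + 1)),
      (confLaw k lam s).real {ω₂ | ¬ 𝒱 l q (occ h (w q) (q * τ) (glue T (ω₁, ω₂)))} ≤
        Real.exp (-(cp * ((L : ℝ) * 2 ^ a) ^ 2)) +
      (2 * (N a : ℝ) + 1) ^ (k + 2) * Real.exp (-(c₃ * side κ₀ a τ ^ (k + 2))) := by
    intro q hq l hl
    have hq' := Finset.mem_Ico.1 hq
    have hl' := Finset.mem_Ico.1 hl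
    have hlL : L ≤ l := (Nat.le_mul_of_pos_right L (by positivity)).trans hl'.1
    obtain ⟨hV1, hV2⟩ := hV l hlL q
    obtain ⟨r, hr⟩ : ∃ r, q = j * 2 ^ a + r := ⟨q - j * 2 ^ a, by
      have : j * 2 ^ a ≤ (j + 1) * 2 ^ a := Nat.mul_le_mul_right _ (Nat.le_succ j)
      omega⟩
    have hr1 : 2 ^ a ≤ r := by
      have := hq'.1
      rw [hr, Nat.add_mul, one_mul] at this
      omega
    have hr2 : r < 2 * 2 ^ a := by
      have := hq'.2
      rw [hr, Nat.add_mul, Nat.add_mul, one_mul] at this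
      omega
    have hqT : q * τ = T + r * τ := by rw [hr, hT, Nat.add_mul]
    have h2a : 1 ≤ 2 ^ a := Nat.one_le_two_pow
    have hΔ : 1 ≤ r * τ := Nat.one_le_iff_ne_zero.2 (Nat.mul_ne_zero (by omega) (by omega))
    have hR : (⌈h * (((CR * 2 ^ l : ℕ) : ℝ) + 1) / side κ₀ a τ⌉₊ + Cm) ≤ N a := by
      rw [hN]
      gcongr ?_ + Cm
      refine Nat.ceil_mono ?_
      have : CR * 2 ^ l ≤ CR * 2 ^ (L * 2 ^ (a + 1)) := by
        gcongr
        · norm_num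
        · exact hl'.2.le
      gcongr
    have hsq1 : side κ₀ a τ ≤ κ₀ * Real.sqrt ((r * τ : ℕ) : ℝ) := by
      unfold side
      gcongr
      push_cast
      gcongr
      exact_mod_cast hr1
    have hsq2 : κ₀ * Real.sqrt ((r * τ : ℕ) : ℝ) ≤ 2 * side κ₀ a τ := by
      have h6 : Real.sqrt ((r * τ : ℕ) : ℝ) ≤ 2 * Real.sqrt (2 ^ a * τ) := by
        have h7 : (2 : ℝ) * Real.sqrt (2 ^ a * τ) = Real.sqrt (2 ^ 2 * (2 ^ a * τ)) := by
          rw [Real.sqrt_mul (by norm_num : (0 : ℝ) ≤ 2 ^ 2) (2 ^ a * (τ : ℝ)),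
            Real.sqrt_sq (by norm_num : (0 : ℝ) ≤ 2)]
        rw [h7]
        refine Real.sqrt_le_sqrt ?_
        push_cast
        have h8 : (r : ℝ) ≤ 2 * 2 ^ a := by exact_mod_cast hr2.le
        have h9 : (0 : ℝ) ≤ τ := Nat.cast_nonneg τ
        have h10 : (0 : ℝ) ≤ 2 ^ a * τ := by positivity
        nlinarith [mul_le_mul_of_nonneg_right h8 h9]
      unfold side
      calc κ₀ * Real.sqrt ((r * τ : ℕ) : ℝ) ≤ κ₀ * (2 * Real.sqrt (2 ^ a * τ)) := by gcongr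
        _ = 2 * (κ₀ * Real.sqrt (2 ^ a * τ)) := by ring
    have key := hRF T (r * τ) (CR * 2 ^ l) (side κ₀ a τ) (w q) ω₁ hΔ hκ hsq1 hsq2 (by
      intro z hz
      have hy : (fun i => w q i + side κ₀ a τ * z i) ∈
          Bo w (fun a => side κ₀ a τ) N a (j + 1) := by
        classical
        unfold Bo
        rw [Finset.mem_image]
        refine ⟨(q, z), ?_, rfl⟩
        rw [Finset.mem_product]
        exact ⟨hq, bx_mono 0 hR hz⟩
      have h7 := hd _ hy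
      unfold spa at h7
      rw [not_not] at h7
      exact h7) (𝒱 l q) hV1
    rw [hqT]
    refine key.trans (add_le_add ?_ ?_)
    · refine hV2.trans (Real.exp_le_exp.2 ?_)
      have h8 : (L : ℝ) * 2 ^ a ≤ (l : ℝ) + 1 := by
        have : L * 2 ^ a ≤ l + 1 := hl'.1.trans (Nat.le_succ l)
        exact_mod_cast this
      have h9 : ((L : ℝ) * 2 ^ a) ^ 2 ≤ ((l : ℝ) + 1) ^ 2 :=
        pow_le_pow_left₀ (by positivity) h8 2
      have := mul_le_mul_of_nonneg_left h9 hcp.le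
      linarith
    · refine mul_le_mul_of_nonneg_right ?_ (Real.exp_pos _).le
      refine pow_le_pow_left₀ (by positivity) ?_ _
      have : ((⌈h * (((CR * 2 ^ l : ℕ) : ℝ) + 1) / side κ₀ a τ⌉₊ + Cm : ℕ) : ℝ) ≤ N a := by
        exact_mod_cast hR
      linarith
  set b := Real.exp (-(cp * ((L : ℝ) * 2 ^ a) ^ 2)) +
      (2 * (N a : ℝ) + 1) ^ (k + 2) * Real.exp (-(c₃ * side κ₀ a τ ^ (k + 2))) with hb
  refine (measureReal_mono hsub (measure_ne_top _ _)).trans ?_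
  refine (measureReal_biUnion_finset_le _ _).trans ?_
  have h1 : ∀ q ∈ Finset.Ico ((j + 1) * 2 ^ a) ((j + 1 + 1) * 2 ^ a),
      (confLaw k lam s).real (⋃ l ∈ Finset.Ico (L * 2 ^ a) (L * 2 ^ (a + 1)),
        {ω₂ | ¬ 𝒱 l q (occ h (w q) (q * τ) (glue T (ω₁, ω₂)))}) ≤ (L : ℝ) * 2 ^ a * b := by
    intro q hq
    refine (measureReal_biUnion_finset_le _ _).trans ?_
    refine (Finset.sum_le_card_nsmul _ _ b (fun l hl => hone q hq l hl)).trans (le_of_eq ?_)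
    rw [Nat.card_Ico, nsmul_eq_mul, pow_succ, ← mul_assoc, Nat.mul_two, Nat.add_sub_cancel]
    push_cast
    ring
  refine (Finset.sum_le_card_nsmul _ _ _ h1).trans ?_
  rw [Nat.card_Ico, Nat.add_mul (j + 1) 1, one_mul, Nat.add_sub_cancel_left, nsmul_eq_mul]
  push_cast
  linarith

/-- Scales beyond the last level. -/
theorem far_bound (hP : PsmStmt) (hS : StatStmt) {lam s h p cp : ℝ} (hlam : 0 < lam)
    (hh : 0 < h) (hp : 0 < p) (hp1 : p < 1 - Real.exp (-(lam * h ^ (k + 2)))) {CR : ℕ}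
    (hcp : 0 < cp) {A τ L : ℕ} (hL : 3 ≤ cp * L)
    {w : ℕ → Sp k} {𝒱 : ℕ → ℕ → Set (Pt k) → Prop}
    (hV : ∀ l ≥ L, ∀ q, MonoLoc (CR * 2 ^ l) (𝒱 l q) ∧
      PS (bx (0 : Pt k) (CR * 2 ^ l)) (fun _ => p) (fun O => ¬ 𝒱 l q ↑O) ≤
        Real.exp (-(cp * ((l : ℝ) + 1) ^ 2))) :
    (confLaw k lam s).real {ω | ∃ q ∈ Finset.Ico (2 ^ A) (2 ^ (A + 1)), ∃ l, L * 2 ^ (A + 1) ≤ l ∧
      ¬ 𝒱 l q (occ h (w q) (q * τ) ω)} ≤ Real.exp (-(4 * 2 ^ A)) := by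
  classical
  have hprob := isProb_conf k lam s
  have hpe : 0 < Real.exp (-(lam * h ^ (k + 2))) := Real.exp_pos _
  have hpe1 : Real.exp (-(lam * h ^ (k + 2))) ≤ 1 := by
    rw [Real.exp_le_one_iff]
    have : 0 ≤ lam * h ^ (k + 2) := by positivity
    linarith
  have h2A : (1 : ℝ) ≤ 2 ^ A := one_le_pow₀ (by norm_num)
  -- one scale
  have hone : ∀ l ≥ L, ∀ q, (confLaw k lam s).real {ω | ¬ 𝒱 l q (occ h (w q) (q * τ) ω)} ≤
      Real.exp (-(cp * ((l : ℝ) + 1) ^ 2)) := by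
    intro l hl q
    obtain ⟨⟨hV0, hV1⟩, hV2⟩ := hV l hl q
    have e : {ω : Cf k | ¬ 𝒱 l q (occ h (w q) (q * τ) ω)} =
        {ω | (fun O : Finset (Pt k) => ¬ 𝒱 l q ↑O) ((bx (0 : Pt k) (CR * 2 ^ l)).filter
          (fun c => c ∈ occ h (w q) (q * τ) ω))} := by
      ext ω
      simp only [Set.mem_ofPred_eq]
      have e3 : (((bx (0 : Pt k) (CR * 2 ^ l)).filter
          (fun c => c ∈ occ h (w q) (q * τ) ω) : Finset (Pt k)) : Set (Pt k)) =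
          occ h (w q) (q * τ) ω ∩ ↑(bx (0 : Pt k) (CR * 2 ^ l)) := by
        ext c
        simp only [Finset.coe_filter, Set.mem_ofPred_eq, Set.mem_inter_iff, Finset.mem_coe]
        tauto
      rw [e3, ← hV1]
    have h1 := hS k lam s h hlam.le hh (w q) (q * τ) (bx (0 : Pt k) (CR * 2 ^ l))
      (fun O : Finset (Pt k) => ¬ 𝒱 l q ↑O)
    have e2 : {ω : Cf k | (fun O : Finset (Pt k) => ¬ 𝒱 l q ↑O)
        ((bx (0 : Pt k) (CR * 2 ^ l)).filter (fun c => c ∈ occ h (w q) (q * τ) ω))} =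
        {ω : Cf k | ¬ 𝒱 l q ↑((bx (0 : Pt k) (CR * 2 ^ l)).filter
          (fun c => c ∈ occ h (w q) (q * τ) ω))} := rfl
    rw [e, e2]
    have h1' : (confLaw k lam s).real {ω : Cf k | ¬ 𝒱 l q ↑((bx (0 : Pt k) (CR * 2 ^ l)).filter
          (fun c => c ∈ occ h (w q) (q * τ) ω))} =
        PS (bx (0 : Pt k) (CR * 2 ^ l)) (fun _ => 1 - Real.exp (-(lam * h ^ (k + 2))))
          (fun O => ¬ 𝒱 l q ↑O) := by
      convert h1
    rw [h1']
    refine le_trans ?_ hV2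
    rw [PS_not, PS_not]
    have h2 := hP (Pt k) (bx (0 : Pt k) (CR * 2 ^ l)) (fun _ => p)
      (fun _ => 1 - Real.exp (-(lam * h ^ (k + 2))))
      (fun _ _ => ⟨hp.le, by linarith⟩) (fun _ _ => ⟨by linarith, by linarith⟩)
      (fun _ _ => hp1.le) (fun O => 𝒱 l q ↑O)
      (fun O O' hO hE => hV0 ↑O ↑O' (by exact_mod_cast hO) hE)
    linarith
  have hfar : ∀ q, ∀ l, L * 2 ^ (A + 1) ≤ l →
      (confLaw k lam s) {ω | ¬ 𝒱 l q (occ h (w q) (q * τ) ω)} ≤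
      ENNReal.ofReal (Real.exp (-(5 * 2 ^ A)) * (1 / 2) ^ (l + 1)) := by
    intro q l hl
    have hlL : L ≤ l := (Nat.le_mul_of_pos_right L (by positivity)).trans hl
    rw [← ofReal_measureReal]
    refine ENNReal.ofReal_le_ofReal ((hone l hlL q).trans ?_)
    have h3 : Real.exp (-((l : ℝ) + 1)) ≤ (1 / 2) ^ (l + 1) := by
      rw [Real.exp_neg, one_div, inv_pow]
      refine inv_anti₀ (by positivity) ?_
      have := pow_two_le_exp (l + 1)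
      push_cast at this
      exact this
    refine le_trans ?_ (mul_le_mul_of_nonneg_left h3 (Real.exp_pos _).le)
    rw [← Real.exp_add, Real.exp_le_exp]
    have h4 : (L : ℝ) * 2 ^ (A + 1) ≤ l := by exact_mod_cast hl
    have h5 : (0 : ℝ) ≤ l := Nat.cast_nonneg l
    have h6 : 3 * 2 ^ (A + 1) ≤ cp * ((l : ℝ) + 1) := by
      calc 3 * 2 ^ (A + 1) ≤ cp * L * 2 ^ (A + 1) :=
            mul_le_mul_of_nonneg_right hL (by positivity)
        _ = cp * (L * 2 ^ (A + 1)) := by ring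
        _ ≤ cp * ((l : ℝ) + 1) := mul_le_mul_of_nonneg_left (by linarith) hcp.le
    have h7 : 6 * 2 ^ A * ((l : ℝ) + 1) ≤ cp * ((l : ℝ) + 1) ^ 2 := by
      calc 6 * 2 ^ A * ((l : ℝ) + 1) = 3 * 2 ^ (A + 1) * ((l : ℝ) + 1) := by rw [pow_succ]; ring
        _ ≤ cp * ((l : ℝ) + 1) * ((l : ℝ) + 1) := mul_le_mul_of_nonneg_right h6 (by linarith)
        _ = cp * ((l : ℝ) + 1) ^ 2 := by ring
    have h8 : 5 * 2 ^ A + ((l : ℝ) + 1) ≤ 6 * 2 ^ A * ((l : ℝ) + 1) := by nlinarith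
    linarith
  have hsub : {ω : Cf k | ∃ q ∈ Finset.Ico (2 ^ A) (2 ^ (A + 1)), ∃ l, L * 2 ^ (A + 1) ≤ l ∧
      ¬ 𝒱 l q (occ h (w q) (q * τ) ω)} ⊆ ⋃ q ∈ Finset.Ico (2 ^ A) (2 ^ (A + 1)),
        ⋃ l : ℕ, {ω | L * 2 ^ (A + 1) ≤ l ∧ ¬ 𝒱 l q (occ h (w q) (q * τ) ω)} := by
    rintro ω ⟨q, hq, l, hl, hE⟩
    simp only [Set.mem_iUnion]
    exact ⟨q, hq, l, hl, hE⟩
  have hsumm : HasSum (fun l : ℕ => Real.exp (-(5 * 2 ^ A)) * (1 / 2 : ℝ) ^ (l + 1))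
      (Real.exp (-(5 * 2 ^ A))) := by
    have h1 := (hasSum_geometric_two.mul_left (1 / 2 : ℝ)).mul_left (Real.exp (-(5 * 2 ^ A)))
    have e1 : Real.exp (-(5 * 2 ^ A)) * (1 / 2 * 2) = Real.exp (-(5 * 2 ^ A)) := by ring
    rw [e1] at h1
    have e2 : (fun l : ℕ => Real.exp (-(5 * 2 ^ A)) * (1 / 2 : ℝ) ^ (l + 1)) =
        fun l : ℕ => Real.exp (-(5 * 2 ^ A)) * (1 / 2 * (1 / 2 : ℝ) ^ l) := by
      funext l; rw [pow_succ]; ring
    rw [e2]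
    exact h1
  have hcol : ∀ q, (confLaw k lam s) (⋃ l : ℕ, {ω | L * 2 ^ (A + 1) ≤ l ∧
      ¬ 𝒱 l q (occ h (w q) (q * τ) ω)}) ≤ ENNReal.ofReal (Real.exp (-(5 * 2 ^ A))) := by
    intro q
    refine (measure_iUnion_le _).trans ?_
    rw [← hsumm.tsum_eq, ENNReal.ofReal_tsum_of_nonneg (fun l => by positivity) hsumm.summable]
    refine ENNReal.tsum_le_tsum fun l => ?_
    by_cases hl : L * 2 ^ (A + 1) ≤ l
    · refine (measure_mono ?_).trans (hfar q l hl)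
      exact fun ω hω => hω.2
    · have e : {ω : Cf k | L * 2 ^ (A + 1) ≤ l ∧ ¬ 𝒱 l q (occ h (w q) (q * τ) ω)} = ∅ := by
        rw [Set.eq_empty_iff_forall_notMem]
        exact fun ω hω => hl hω.1
      rw [e, measure_empty]
      exact zero_le
  have htot : (confLaw k lam s).real (⋃ q ∈ Finset.Ico (2 ^ A) (2 ^ (A + 1)),
        ⋃ l : ℕ, {ω | L * 2 ^ (A + 1) ≤ l ∧ ¬ 𝒱 l q (occ h (w q) (q * τ) ω)}) ≤
      2 ^ A * Real.exp (-(5 * 2 ^ A)) := by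
    refine (measureReal_biUnion_finset_le _ _).trans ?_
    refine (Finset.sum_le_card_nsmul _ _ (Real.exp (-(5 * 2 ^ A))) (fun q _ => ?_)).trans
      (le_of_eq ?_)
    · rw [measureReal_def]
      exact ENNReal.toReal_le_of_le_ofReal (Real.exp_pos _).le (hcol q)
    · rw [Nat.card_Ico, pow_succ, Nat.mul_two, Nat.add_sub_cancel, nsmul_eq_mul]
      push_cast
      ring
  refine (measureReal_mono hsub (measure_ne_top _ _)).trans (htot.trans ?_)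
  calc 2 ^ A * Real.exp (-(5 * 2 ^ A)) ≤ Real.exp (2 ^ A) * Real.exp (-(5 * 2 ^ A)) :=
        mul_le_mul_of_nonneg_right (le_exp_self _) (Real.exp_pos _).le
    _ = Real.exp (-(4 * 2 ^ A)) := by rw [← Real.exp_add]; congr 1; ring

end Events

open Classical in
theorem dyn (hP : PsmStmt) (hM : MeasStmt) (hS : StatStmt) (hD : DensStmt) (hRf : RfStmt)
    (hRb : RefbStmt) : DynStmt := by
  intro k lam s h p hlam hs hh hp hp1 v cp CR hv hcp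
  obtain ⟨ε, κ₀, c₃, Cm, hε, hε1, hκ₀, hκ₀s, hc₃, hRF⟩ := hRf k lam s h p hlam hs hh hp hp1
  refine ⟨⌈(180 / v + 3) / cp⌉₊ + 1, fun L hL => ?_⟩
  have hL1 : 1 ≤ L := by omega
  have hcpL : 180 / v + 3 ≤ cp * L := by
    have h1 : (180 / v + 3) / cp ≤ ⌈(180 / v + 3) / cp⌉₊ := Nat.le_ceil _
    have h2 : (⌈(180 / v + 3) / cp⌉₊ : ℝ) ≤ L := by
      have : ⌈(180 / v + 3) / cp⌉₊ ≤ L := by omega
      exact_mod_cast this
    rw [div_le_iff₀ hcp] at h1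
    calc 180 / v + 3 ≤ (⌈(180 / v + 3) / cp⌉₊ : ℝ) * cp := h1
      _ ≤ L * cp := mul_le_mul_of_nonneg_right h2 hcp.le
      _ = cp * L := by ring
  set K : ℝ := h * (CR + 1) / κ₀ + 1 + Cm with hK
  set C' : ℝ := 3 * K + 2 * L with hC'
  have hC'0 : 0 ≤ C' := by positivity
  obtain ⟨CD, hCD, hDens⟩ := hD k lam s ε κ₀ hlam hs hε hε1 hκ₀ hκ₀s (1 + (k + 2) * C') (v / 3)
    (by positivity)
  set C₀ : ℝ := max (max 1 CD)
    ((180 / v + 2 * (L + 3 + (k + 2) * C')) / (c₃ * κ₀ ^ (k + 2))) with hC₀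
  have hC1 : 1 ≤ C₀ := (le_max_left _ _).trans (le_max_left _ _)
  have hCDC : CD ≤ C₀ := (le_max_right _ _).trans (le_max_left _ _)
  have hC0' : 180 / v + 2 * (L + 3 + (k + 2) * C') ≤ c₃ * κ₀ ^ (k + 2) * C₀ := by
    have h1 : (180 / v + 2 * (L + 3 + (k + 2) * C')) / (c₃ * κ₀ ^ (k + 2)) ≤ C₀ :=
      le_max_right _ _
    rw [div_le_iff₀ (by positivity)] at h1
    linarith
  refine ⟨C₀, by linarith, fun A τ w 𝒱 hτ hV => ?_⟩
  have hprob := isProb_conf k lam s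
  have hLw : 1 ≤ Lw k A := by
    unfold Lw
    have : (0 : ℝ) ≤ A := Nat.cast_nonneg A
    split_ifs <;> linarith
  have hτ1 : 1 ≤ τ := by
    have h1 : (1 : ℝ) ≤ C₀ * Lw k A := by nlinarith
    have : (1 : ℝ) ≤ τ := h1.trans hτ
    exact_mod_cast this
  have hτD : CD * Lw k A ≤ τ := (mul_le_mul_of_nonneg_right hCDC (by linarith)).trans hτ
  set N : ℕ → ℕ := fun a =>
    ⌈h * ((CR * 2 ^ (L * 2 ^ (a + 1)) : ℕ) + 1) / side κ₀ a τ⌉₊ + Cm with hN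
  have hside : ∀ a, κ₀ ≤ side κ₀ a τ := by
    intro a
    unfold side
    refine le_mul_of_one_le_right hκ₀.le ?_
    rw [Real.one_le_sqrt]
    have h1 : (1 : ℝ) ≤ 2 ^ a := one_le_pow₀ (by norm_num)
    have h2 : (1 : ℝ) ≤ τ := by exact_mod_cast hτ1
    nlinarith
  have hN2 : ∀ a, 2 * (N a : ℝ) + 1 ≤ Real.exp (C' * 2 ^ a) := fun a =>
    num_boxes hh hκ₀ (hside a) CR Cm L a
  have hcard : ∀ a j, ((Bo w (fun a => side κ₀ a τ) N a j).card : ℝ) ≤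
      Real.exp ((1 + (k + 2) * C') * 2 ^ a) := by
    intro a j
    have h1 : ((Bo w (fun a => side κ₀ a τ) N a j).card : ℝ) ≤
        2 ^ a * (2 * (N a : ℝ) + 1) ^ (k + 2) := by
      exact_mod_cast card_Bo w (fun a => side κ₀ a τ) N a j
    refine h1.trans ?_
    calc 2 ^ a * (2 * (N a : ℝ) + 1) ^ (k + 2) ≤
        Real.exp (2 ^ a) * Real.exp (C' * 2 ^ a) ^ (k + 2) :=
          mul_le_mul (le_exp_self _) (pow_le_pow_left₀ (by positivity) (hN2 a) _)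
            (by positivity) (by positivity)
      _ = Real.exp ((1 + (k + 2) * C') * 2 ^ a) := by
          rw [← Real.exp_nat_mul, ← Real.exp_add]
          congr 1
          push_cast
          ring
  have h1 := hDens A τ hτD (Bo w (fun a => side κ₀ a τ) N) hcard
  have h1' : (confLaw k lam s).real {ω | v / 3 * 2 ^ A ≤
      (((Finset.Ico (2 ^ A) (2 ^ (A + 1))).filter (fun q =>
        ∃ a ≤ A, ∃ y ∈ Bo w (fun a => side κ₀ a τ) N a (q / 2 ^ a),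
          spa lam ε κ₀ τ a (q / 2 ^ a) y ω)).card : ℝ)} ≤ Real.exp (-(4 * 2 ^ A)) := by
    rw [measureReal_def]
    exact ENNReal.toReal_le_of_le_ofReal (Real.exp_pos _).le h1
  have h2 : ∀ a ∈ Finset.range (A + 1), (confLaw k lam s).real
      {ω | v / 15 * ((3 / 4 : ℝ) ^ a + 1 / ((A : ℝ) + 1)) * 2 ^ A ≤
        2 ^ a * (((Finset.Ico (2 ^ (A - a)) (2 ^ (A - a + 1))).filter
          (fun j => ω ∈ Ev lam ε κ₀ h τ L w N 𝒱 a j)).card : ℝ)} ≤ Real.exp (-(4 * 2 ^ A)) := by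
    intro a ha
    have haA : a ≤ A := Nat.lt_succ_iff.1 (Finset.mem_range.1 ha)
    refine hRb k lam s (Real.exp (-(12 * 2 ^ a /
      (v / 15 * ((3 / 4 : ℝ) ^ a + 1 / ((A : ℝ) + 1)))))) _ a τ A (Real.exp_pos _).le
      (by positivity) haA le_rfl (Ev lam ε κ₀ h τ L w N 𝒱 a)
      (Ev_meas hM lam ε κ₀ h τ L w N 𝒱 CR (fun l hl q => (hV l hl q).1) a)
      (Ev_glue lam ε κ₀ h τ L w N 𝒱 a)
      (Ev_cond hh hκ₀ hcp hRF hτ1 hV (fun a => rfl) (Real.exp_pos _).le ?_)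
    have s1 := num_static hv hL1 hcpL A a
    have s2 := num_refresh (L := L) hv hc₃ hκ₀ hC'0 (k := k) (a := a) hC1 hτ hC0'
      (B := 2 * (N a : ℝ) + 1) (by positivity) (hN2 a)
    rw [mul_add]
    linarith
  have h3L : 3 ≤ cp * (L : ℝ) := by
    have : 0 < 180 / v := by positivity
    linarith
  have h3 := far_bound (s := s) (A := A) (τ := τ) (w := w) hP hS hlam hh hp hp1 hcp h3L hV
  -- the inclusion
  have hsub : {ω : Cf k | v * 2 ^ A ≤ (((Finset.Ico (2 ^ A) (2 ^ (A + 1))).filter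
        (fun q => ∃ l ≥ L, ¬ 𝒱 l q (occ h (w q) (q * τ) ω))).card : ℝ)} ⊆
      ({ω | v / 3 * 2 ^ A ≤
      (((Finset.Ico (2 ^ A) (2 ^ (A + 1))).filter (fun q =>
        ∃ a ≤ A, ∃ y ∈ Bo w (fun a => side κ₀ a τ) N a (q / 2 ^ a),
          spa lam ε κ₀ τ a (q / 2 ^ a) y ω)).card : ℝ)} ∪
      ⋃ a ∈ Finset.range (A + 1), {ω | v / 15 * ((3 / 4 : ℝ) ^ a + 1 / ((A : ℝ) + 1)) * 2 ^ A ≤
        2 ^ a * (((Finset.Ico (2 ^ (A - a)) (2 ^ (A - a + 1))).filter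
          (fun j => ω ∈ Ev lam ε κ₀ h τ L w N 𝒱 a j)).card : ℝ)}) ∪
      {ω | ∃ q ∈ Finset.Ico (2 ^ A) (2 ^ (A + 1)), ∃ l, L * 2 ^ (A + 1) ≤ l ∧
        ¬ 𝒱 l q (occ h (w q) (q * τ) ω)} := by
    intro ω hω
    by_contra hcon
    simp only [Set.mem_union, Set.mem_iUnion, Set.mem_ofPred_eq, not_or, not_exists,
      exists_prop, not_and, not_le] at hcon hω
    obtain ⟨⟨c1, c2⟩, c3⟩ := hcon
    have hcov : (Finset.Ico (2 ^ A) (2 ^ (A + 1))).filter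
        (fun q => ∃ l ≥ L, ¬ 𝒱 l q (occ h (w q) (q * τ) ω)) ⊆
        (Finset.Ico (2 ^ A) (2 ^ (A + 1))).filter (fun q =>
          ∃ a ≤ A, ∃ y ∈ Bo w (fun a => side κ₀ a τ) N a (q / 2 ^ a),
            spa lam ε κ₀ τ a (q / 2 ^ a) y ω) ∪
        (Finset.range (A + 1)).biUnion (fun a => (Finset.Ico (2 ^ A) (2 ^ (A + 1))).filter
          (fun q => ω ∈ Ev lam ε κ₀ h τ L w N 𝒱 a (q / 2 ^ a))) := by
      intro q hq
      rw [Finset.mem_filter] at hq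
      obtain ⟨hq, l, hl, hE⟩ := hq
      have hq' := Finset.mem_Ico.1 hq
      have hlf : l < L * 2 ^ (A + 1) := by
        by_contra h5
        exact c3 q hq l (not_lt.1 h5) hE
      have hlL : 1 ≤ l / L := by
        rw [Nat.le_div_iff_mul_le (by omega), one_mul]
        exact hl
      set a := Nat.log 2 (l / L) with ha
      have ha1 : 2 ^ a ≤ l / L := Nat.pow_log_le_self 2 (by omega)
      have ha2 : l / L < 2 ^ (a + 1) := Nat.lt_pow_succ_log_self (by norm_num) _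
      have ha3 : L * 2 ^ a ≤ l := by
        have := (Nat.le_div_iff_mul_le (by omega : 0 < L)).1 ha1
        rwa [mul_comm] at this
      have ha4 : l < L * 2 ^ (a + 1) := by
        have := (Nat.div_lt_iff_lt_mul (by omega : 0 < L)).1 ha2
        rwa [mul_comm] at this
      have haA : a ≤ A := by
        by_contra h5
        have h6 : A + 1 ≤ a := by omega
        have h7 : L * 2 ^ (A + 1) ≤ L * 2 ^ a :=
          Nat.mul_le_mul_left L (Nat.pow_le_pow_right (by norm_num) h6)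
        omega
      rw [Finset.mem_union]
      by_cases hsp : ∃ y ∈ Bo w (fun a => side κ₀ a τ) N a (q / 2 ^ a),
          spa lam ε κ₀ τ a (q / 2 ^ a) y ω
      · left
        rw [Finset.mem_filter]
        exact ⟨hq, a, haA, hsp⟩
      · right
        rw [Finset.mem_biUnion]
        refine ⟨a, Finset.mem_range.2 (by omega), ?_⟩
        rw [Finset.mem_filter]
        refine ⟨hq, ⟨?_, fun y hy hy2 => hsp ⟨y, hy, hy2⟩⟩, q, ?_, l,
          Finset.mem_Ico.2 ⟨ha3, ha4⟩, hE⟩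
        · rw [Nat.le_div_iff_mul_le (by positivity), one_mul]
          exact (Nat.pow_le_pow_right (by norm_num) haA).trans hq'.1
        · rw [Finset.mem_Ico]
          exact ⟨Nat.div_mul_le_self q _,
            Nat.lt_mul_of_div_lt (Nat.lt_succ_self _) (by positivity)⟩
    have hc := (Finset.card_le_card hcov).trans (Finset.card_union_le _ _)
    have hc2 := hc.trans (Nat.add_le_add_left Finset.card_biUnion_le _)
    have hc3 : ((((Finset.Ico (2 ^ A) (2 ^ (A + 1))).filter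
        (fun q => ∃ l ≥ L, ¬ 𝒱 l q (occ h (w q) (q * τ) ω))).card : ℕ) : ℝ) ≤
        (((Finset.Ico (2 ^ A) (2 ^ (A + 1))).filter (fun q =>
          ∃ a ≤ A, ∃ y ∈ Bo w (fun a => side κ₀ a τ) N a (q / 2 ^ a),
            spa lam ε κ₀ τ a (q / 2 ^ a) y ω)).card : ℝ) +
        ∑ a ∈ Finset.range (A + 1), (((Finset.Ico (2 ^ A) (2 ^ (A + 1))).filter
          (fun q => ω ∈ Ev lam ε κ₀ h τ L w N 𝒱 a (q / 2 ^ a))).card : ℝ) := by
      exact_mod_cast hc2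
    have hc4 : ∀ a ∈ Finset.range (A + 1), (((Finset.Ico (2 ^ A) (2 ^ (A + 1))).filter
          (fun q => ω ∈ Ev lam ε κ₀ h τ L w N 𝒱 a (q / 2 ^ a))).card : ℝ) ≤
        v / 15 * ((3 / 4 : ℝ) ^ a + 1 / ((A : ℝ) + 1)) * 2 ^ A := by
      intro a ha
      have haA : a ≤ A := Nat.lt_succ_iff.1 (Finset.mem_range.1 ha)
      have h5 := card_blocks A a haA (fun j => ω ∈ Ev lam ε κ₀ h τ L w N 𝒱 a j)
      have h6 : (((Finset.Ico (2 ^ A) (2 ^ (A + 1))).filter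
          (fun q => ω ∈ Ev lam ε κ₀ h τ L w N 𝒱 a (q / 2 ^ a))).card : ℝ) ≤
          2 ^ a * (((Finset.Ico (2 ^ (A - a)) (2 ^ (A - a + 1))).filter
          (fun j => ω ∈ Ev lam ε κ₀ h τ L w N 𝒱 a j)).card : ℝ) := by
        exact_mod_cast h5
      exact h6.trans (c2 a ha).le
    have hc5 := Finset.sum_le_sum hc4
    have hc6 : ∑ a ∈ Finset.range (A + 1),
        v / 15 * ((3 / 4 : ℝ) ^ a + 1 / ((A : ℝ) + 1)) * 2 ^ A ≤ v / 3 * 2 ^ A := by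
      rw [← Finset.sum_mul, ← Finset.mul_sum]
      refine mul_le_mul_of_nonneg_right ?_ (by positivity)
      calc v / 15 * ∑ a ∈ Finset.range (A + 1), ((3 / 4 : ℝ) ^ a + 1 / ((A : ℝ) + 1)) ≤
          v / 15 * 5 := mul_le_mul_of_nonneg_left (sum_den A) (by positivity)
        _ = v / 3 := by ring
    have h2A : (0 : ℝ) < v * 2 ^ A := by positivity
    linarith
  have hfin : (confLaw k lam s).real {ω : Cf k | v * 2 ^ A ≤
      (((Finset.Ico (2 ^ A) (2 ^ (A + 1))).filter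
        (fun q => ∃ l ≥ L, ¬ 𝒱 l q (occ h (w q) (q * τ) ω))).card : ℝ)} ≤
      (A + 3) * Real.exp (-(4 * 2 ^ A)) := by
    refine (measureReal_mono hsub (measure_ne_top _ _)).trans ?_
    refine (measureReal_union_le _ _).trans ?_
    have h4 := measureReal_union_le (μ := confLaw k lam s) {ω | v / 3 * 2 ^ A ≤
      (((Finset.Ico (2 ^ A) (2 ^ (A + 1))).filter (fun q =>
        ∃ a ≤ A, ∃ y ∈ Bo w (fun a => side κ₀ a τ) N a (q / 2 ^ a),
          spa lam ε κ₀ τ a (q / 2 ^ a) y ω)).card : ℝ)}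
      (⋃ a ∈ Finset.range (A + 1), {ω | v / 15 * ((3 / 4 : ℝ) ^ a + 1 / ((A : ℝ) + 1)) * 2 ^ A ≤
        2 ^ a * (((Finset.Ico (2 ^ (A - a)) (2 ^ (A - a + 1))).filter
          (fun j => ω ∈ Ev lam ε κ₀ h τ L w N 𝒱 a j)).card : ℝ)})
    have h5 := (measureReal_biUnion_finset_le (μ := confLaw k lam s) (Finset.range (A + 1))
      (fun a => {ω | v / 15 * ((3 / 4 : ℝ) ^ a + 1 / ((A : ℝ) + 1)) * 2 ^ A ≤
        2 ^ a * (((Finset.Ico (2 ^ (A - a)) (2 ^ (A - a + 1))).filter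
          (fun j => ω ∈ Ev lam ε κ₀ h τ L w N 𝒱 a j)).card : ℝ)})).trans
      (Finset.sum_le_card_nsmul _ _ _ h2)
    rw [Finset.card_range, nsmul_eq_mul] at h5
    push_cast at h5
    linarith
  refine hfin.trans ?_
  have hA : (A : ℝ) + 1 ≤ 2 ^ A := by
    have : A + 1 ≤ 2 ^ A := Nat.lt_two_pow_self
    exact_mod_cast this
  have h6 : (A : ℝ) + 3 ≤ Real.exp (3 * 2 ^ A) := by
    have := Real.add_one_le_exp (3 * 2 ^ A : ℝ)
    linarith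
  calc ((A : ℝ) + 3) * Real.exp (-(4 * 2 ^ A)) ≤ Real.exp (3 * 2 ^ A) * Real.exp (-(4 * 2 ^ A)) :=
        mul_le_mul_of_nonneg_right h6 (Real.exp_pos _).le
    _ = Real.exp (-(2 ^ A)) := by rw [← Real.exp_add]; congr 1; ring

end Pool.Agent.TP.H67
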