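import Pool.Agent.Helper67_TP.Dom

/-!
# POI: upper tail of the Poisson law
-/

set_option autoImplicit false

namespace Pool.Agent.TP.H67

open MeasureTheory ProbabilityTheory

theorem poi : PoiStmt := by
  intro ε hε hε1
  have h1 : 0 < 1 - ε := by linarith
  refine ⟨-(Real.log (1 - ε)) - ε, ?_, ?_⟩
  · have := Real.log_lt_sub_one_of_pos h1 (by linarith)
    linarith
  intro M μ hμ hμM
  have s2 := poisson_tail μ hμ M
  set x : ℝ := (1 - ε)⁻¹ with hx
  have hx1 : 1 ≤ x := by
    rw [hx]
    exact (one_le_inv₀ h1).2 (by linarith)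
  have hx0 : 0 < x := by positivity
  have h3 : HasSum (fun n : ℕ => Real.exp (-μ) * μ ^ n / (n.factorial : ℝ) *
      ((1 - ε) ^ M * x ^ n)) ((1 - ε) ^ M * (Real.exp (-μ) * Real.exp (μ * x))) := by
    have h2 := ((NormedSpace.expSeries_div_hasSum_exp (μ * x)).mul_left
      (Real.exp (-μ))).mul_left ((1 - ε) ^ M)
    rw [← Real.exp_eq_exp_ℝ] at h2
    have e : (fun n : ℕ => Real.exp (-μ) * μ ^ n / (n.factorial : ℝ) *
      ((1 - ε) ^ M * x ^ n)) =
      (fun n : ℕ => (1 - ε) ^ M * (Real.exp (-μ) * ((μ * x) ^ n / (n.factorial : ℝ)))) := by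
      funext n
      rw [mul_pow]; ring
    rw [e]
    exact h2
  have h4 := hasSum_le (fun n => ?_) s2 h3
  · refine h4.trans ?_
    have e1 : (1 - ε) ^ M = Real.exp (Real.log (1 - ε) * M) := by
      rw [mul_comm, Real.exp_nat_mul, Real.exp_log h1]
    rw [e1, ← Real.exp_add, ← Real.exp_add, Real.exp_le_exp]
    have h5 : μ * x - μ ≤ ε * M := by
      have : μ * x - μ = μ * (ε * x) := by
        rw [hx]; field_simp; ring
      rw [this]
      calc μ * (ε * x) ≤ ((1 - ε) * M) * (ε * x) :=
            mul_le_mul_of_nonneg_right hμM (by positivity)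
        _ = ε * M := by rw [hx]; field_simp
    linarith
  · refine mul_le_mul_of_nonneg_left ?_ (by positivity)
    by_cases hn : M < n
    · rw [if_pos hn]
      calc (1 : ℝ) = (1 - ε) ^ M * x ^ M := by
            rw [← mul_pow, hx, mul_inv_cancel₀ h1.ne', one_pow]
        _ ≤ (1 - ε) ^ M * x ^ n :=
            mul_le_mul_of_nonneg_left (pow_le_pow_right₀ hx1 hn.le) (by positivity)
    · rw [if_neg hn]
      positivity

end Pool.Agent.TP.H67
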