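import Pool.Agent.Helper28_TP.StS
import Pool.Agent.Helper28_TP.DyS

/-!
# DYN, first part: the probability space, gluing, numerical lemmas
-/

set_option autoImplicit false

namespace Pool.Agent.TP.H67

open MeasureTheory ProbabilityTheory

theorem isProb_unif (k : ℕ) : IsProbabilityMeasure (unif k) := by
  have h : ∀ _ : Fin (k + 2), IsProbabilityMeasure
      ((volume : Measure ℝ).restrict (Set.Ico (0 : ℝ) 1)) := fun _ => ⟨by simp⟩
  unfold unif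
  infer_instance

theorem isProb_step (k : ℕ) (s : ℝ) : IsProbabilityMeasure (stepLaw k s) := by
  unfold stepLaw
  infer_instance

theorem isProb_walk (k : ℕ) (s : ℝ) : IsProbabilityMeasure (walkLaw k s) := by
  have h := isProb_step k s
  unfold walkLaw
  infer_instance

theorem isProb_mark (k : ℕ) (s : ℝ) : IsProbabilityMeasure (markLaw k s) := by
  have h1 := isProb_unif k
  have h2 := isProb_walk k s
  unfold markLaw
  infer_instance

theorem isProb_conf (k : ℕ) (lam s : ℝ) : IsProbabilityMeasure (confLaw k lam s) := by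
  have h1 := isProb_mark k s
  unfold confLaw
  infer_instance

section Glue

variable {k : ℕ}

theorem pos_glue {T i : ℕ} (hi : i ≤ T) (ω ω₂ : Cf k) (v : Pt k × ℕ) :
    pos (glue T (ω, ω₂)) i v = pos ω i v := by
  unfold pos walk glue
  funext a
  simp only
  congr 1
  refine Finset.sum_congr rfl fun j hj => ?_
  rw [if_pos (lt_of_lt_of_le (Finset.mem_range.1 hj) hi)]

theorem alive_glue (T : ℕ) (ω ω₂ : Cf k) (v : Pt k × ℕ) :
    alive (glue T (ω, ω₂)) v ↔ alive ω v := Iff.rfl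

theorem occ_glue (h : ℝ) (w : Sp k) {T i : ℕ} (hi : i ≤ T) (ω ω₂ : Cf k) :
    occ h w i (glue T (ω, ω₂)) = occ h w i ω := by
  unfold occ
  ext c
  simp only [alive_glue, pos_glue hi]

theorem many_glue (y : Sp k) (κ : ℝ) (M : ℕ) {T i : ℕ} (hi : i ≤ T) (ω ω₂ : Cf k) :
    many y κ i (glue T (ω, ω₂)) M ↔ many y κ i ω M := by
  unfold many
  simp only [alive_glue, pos_glue hi]

end Glue

section Num

/-- The weight of level `a`. -/
noncomputable def mm (A a : ℕ) : ℝ := ((3 / 4 : ℝ) ^ a + 1 / ((A : ℝ) + 1))⁻¹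

theorem mm_den_pos (A a : ℕ) : 0 < (3 / 4 : ℝ) ^ a + 1 / ((A : ℝ) + 1) := by positivity

theorem mm_pos (A a : ℕ) : 0 < mm A a := inv_pos.2 (mm_den_pos A a)

theorem half_le_mm (A a : ℕ) : 1 / 2 ≤ mm A a := by
  unfold mm
  rw [one_div, inv_le_inv₀ (by norm_num) (mm_den_pos A a)]
  have h1 : (3 / 4 : ℝ) ^ a ≤ 1 := pow_le_one₀ (by norm_num) (by norm_num)
  have h2 : 1 / ((A : ℝ) + 1) ≤ 1 := by
    rw [div_le_one (by positivity)]
    have : (0 : ℝ) ≤ A := Nat.cast_nonneg A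
    linarith
  linarith

theorem mm_le_lin (A a : ℕ) : mm A a ≤ (A : ℝ) + 1 := by
  unfold mm
  have h : (0 : ℝ) < (A : ℝ) + 1 := by positivity
  rw [inv_le_comm₀ (mm_den_pos A a) h, ← one_div]
  have : (0 : ℝ) ≤ (3 / 4 : ℝ) ^ a := by positivity
  linarith

theorem mm_le_pow (A a : ℕ) : mm A a ≤ (4 / 3 : ℝ) ^ a := by
  unfold mm
  rw [inv_le_comm₀ (mm_den_pos A a) (by positivity), ← inv_pow]
  have e : ((4 / 3 : ℝ))⁻¹ = 3 / 4 := by norm_num
  rw [e]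
  have : (0 : ℝ) ≤ 1 / ((A : ℝ) + 1) := by positivity
  linarith

theorem sum_den (A : ℕ) : ∑ a ∈ Finset.range (A + 1), ((3 / 4 : ℝ) ^ a + 1 / ((A : ℝ) + 1)) ≤ 5 := by
  rw [Finset.sum_add_distrib, Finset.sum_const, Finset.card_range, nsmul_eq_mul]
  have h1 : ∑ a ∈ Finset.range (A + 1), (3 / 4 : ℝ) ^ a ≤ 4 := by
    rw [geom_sum_eq (by norm_num)]
    have : (0 : ℝ) ≤ (3 / 4 : ℝ) ^ (A + 1) := by positivity
    have e : ((3 / 4 : ℝ) ^ (A + 1) - 1) / (3 / 4 - 1) = 4 * (1 - (3 / 4 : ℝ) ^ (A + 1)) := by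
      norm_num
      ring
    rw [e]
    linarith
  have h2 : ((A + 1 : ℕ) : ℝ) * (1 / ((A : ℝ) + 1)) = 1 := by
    push_cast
    field_simp
  rw [h2]
  linarith

/-- Growth of the boxes. -/
theorem side_growth {k A a τ : ℕ} {C₀ : ℝ} (hC : 1 ≤ C₀) (hτ : C₀ * Lw k A ≤ τ) :
    C₀ * (2 ^ a * mm A a) ≤ Real.sqrt (2 ^ a * τ) ^ (k + 2) := by
  have h2a : (1 : ℝ) ≤ 2 ^ a := one_le_pow₀ (by norm_num)
  rcases Nat.eq_zero_or_pos k with hk | hk
  · subst hk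
    unfold Lw at hτ
    rw [if_pos rfl] at hτ
    rw [zero_add, Real.sq_sqrt (by positivity)]
    have h1 := mm_le_lin A a
    calc C₀ * (2 ^ a * mm A a) = 2 ^ a * (C₀ * mm A a) := by ring
      _ ≤ 2 ^ a * (C₀ * (1 + A)) := by
          refine mul_le_mul_of_nonneg_left ?_ (by positivity)
          refine mul_le_mul_of_nonneg_left ?_ (by linarith)
          linarith
      _ ≤ 2 ^ a * τ := mul_le_mul_of_nonneg_left hτ (by positivity)
  · unfold Lw at hτ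
    rw [if_neg hk.ne', mul_one] at hτ
    have hτ1 : (1 : ℝ) ≤ τ := hC.trans hτ
    have hx1 : (1 : ℝ) ≤ 2 ^ a * τ := by
      calc (1 : ℝ) = 1 * 1 := by ring
        _ ≤ 2 ^ a * τ := mul_le_mul h2a hτ1 (by norm_num) (by positivity)
    have hs1 : 1 ≤ Real.sqrt (2 ^ a * τ) := by
      rw [Real.one_le_sqrt]; exact hx1
    have hs2 : (4 / 3 : ℝ) ^ a ≤ Real.sqrt (2 ^ a * τ) := by
      rw [Real.le_sqrt (by positivity) (by positivity), ← pow_mul, mul_comm a 2, pow_mul]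
      calc (((4 / 3 : ℝ)) ^ 2) ^ a ≤ (2 : ℝ) ^ a :=
            pow_le_pow_left₀ (by norm_num) (by norm_num) a
        _ ≤ 2 ^ a * τ := le_mul_of_one_le_right (by positivity) hτ1
    calc C₀ * (2 ^ a * mm A a) ≤ τ * (2 ^ a * (4 / 3 : ℝ) ^ a) := by
          refine mul_le_mul hτ ?_ (by have := mm_pos A a; positivity) (by positivity)
          exact mul_le_mul_of_nonneg_left (mm_le_pow A a) (by positivity)
      _ = (2 ^ a * τ) * (4 / 3 : ℝ) ^ a := by ring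
      _ ≤ (2 ^ a * τ) * Real.sqrt (2 ^ a * τ) := mul_le_mul_of_nonneg_left hs2 (by positivity)
      _ = Real.sqrt (2 ^ a * τ) ^ 3 := by
          rw [pow_succ, Real.sq_sqrt (by positivity)]
      _ ≤ Real.sqrt (2 ^ a * τ) ^ (k + 2) := pow_le_pow_right₀ hs1 (by omega)

theorem pow_two_le_exp (n : ℕ) : (2 : ℝ) ^ n ≤ Real.exp n := by
  have : Real.exp n = Real.exp 1 ^ n := by rw [← Real.exp_nat_mul, mul_one]
  rw [this]
  refine pow_le_pow_left₀ (by norm_num) ?_ n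
  have := Real.add_one_le_exp (1 : ℝ)
  linarith

theorem le_exp_self (x : ℝ) : x ≤ Real.exp x := by
  have := Real.add_one_le_exp x
  linarith

/-- The static part. -/
theorem num_static {v cp : ℝ} (hv : 0 < v) {L : ℕ} (hL : 1 ≤ L)
    (h : 180 / v + 3 ≤ cp * L) (A a : ℕ) :
    2 ^ a * ((L : ℝ) * 2 ^ a) * Real.exp (-(cp * ((L : ℝ) * 2 ^ a) ^ 2)) ≤
      1 / 2 * Real.exp (-(12 * 2 ^ a / (v / 15 * ((3 / 4 : ℝ) ^ a + 1 / ((A : ℝ) + 1))))) := by
  have hL1 : (1 : ℝ) ≤ L := by exact_mod_cast hL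
  have h2a : (1 : ℝ) ≤ 2 ^ a := one_le_pow₀ (by norm_num)
  have h4 : (2 : ℝ) ^ a * 2 ^ a = 4 ^ a := by rw [← mul_pow]; norm_num
  have h4a : (1 : ℝ) ≤ 4 ^ a := one_le_pow₀ (by norm_num)
  have e1 : 12 * 2 ^ a / (v / 15 * ((3 / 4 : ℝ) ^ a + 1 / ((A : ℝ) + 1))) =
      180 / v * (2 ^ a * mm A a) := by
    unfold mm
    have := (mm_den_pos A a).ne'
    field_simp
    ring
  have e2 : 2 ^ a * mm A a ≤ 4 ^ a := by
    rw [← h4]
    refine mul_le_mul_of_nonneg_left ((mm_le_pow A a).trans ?_) (by positivity)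
    exact pow_le_pow_left₀ (by norm_num) (by norm_num) a
  rw [e1]
  have h180 : 0 < 180 / v := by positivity
  have e3 : 180 / v * (2 ^ a * mm A a) ≤ 180 / v * 4 ^ a := mul_le_mul_of_nonneg_left e2 h180.le
  have e4 : 2 * (2 ^ a * ((L : ℝ) * 2 ^ a)) ≤ Real.exp ((1 + L + 1) * 4 ^ a) := by
    have h1 : (2 : ℝ) ≤ Real.exp (4 ^ a) := by
      have := Real.add_one_le_exp ((4 : ℝ) ^ a)
      linarith
    have h2 : (L : ℝ) ≤ Real.exp (L * 4 ^ a) := by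
      refine (le_exp_self L).trans (Real.exp_le_exp.2 ?_)
      exact le_mul_of_one_le_right (by positivity) h4a
    have h3 : (4 : ℝ) ^ a ≤ Real.exp (4 ^ a) := le_exp_self _
    calc 2 * (2 ^ a * ((L : ℝ) * 2 ^ a)) = 2 * L * 4 ^ a := by rw [← h4]; ring
      _ ≤ Real.exp (4 ^ a) * Real.exp (L * 4 ^ a) * Real.exp (4 ^ a) := by
          refine mul_le_mul (mul_le_mul h1 h2 (by positivity) (by positivity)) h3
            (by positivity) (by positivity)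
      _ = Real.exp ((1 + L + 1) * 4 ^ a) := by
          rw [← Real.exp_add, ← Real.exp_add]; congr 1; ring
  have e5 : cp * ((L : ℝ) * 2 ^ a) ^ 2 = cp * L * L * 4 ^ a := by
    rw [mul_pow, pow_two (2 ^ a : ℝ), h4]; ring
  have e6 : (180 / v + (1 + L + 1)) * 4 ^ a ≤ cp * L * L * 4 ^ a := by
    refine mul_le_mul_of_nonneg_right ?_ (by positivity)
    calc 180 / v + (1 + (L : ℝ) + 1) ≤ (180 / v + 3) * L := by nlinarith
      _ ≤ cp * L * L := mul_le_mul_of_nonneg_right h (by positivity)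
  have e7 : Real.exp ((1 + L + 1) * 4 ^ a) * Real.exp (-(cp * ((L : ℝ) * 2 ^ a) ^ 2)) ≤
      Real.exp (-(180 / v * (2 ^ a * mm A a))) := by
    rw [← Real.exp_add, Real.exp_le_exp, e5]
    linarith
  have e8 := mul_le_mul_of_nonneg_right e4 (Real.exp_pos (-(cp * ((L : ℝ) * 2 ^ a) ^ 2))).le
  linarith

/-- The number of boxes. -/
theorem num_boxes {h κ₀ κ : ℝ} (hh : 0 < h) (hκ₀ : 0 < κ₀) (hκ : κ₀ ≤ κ) (CR Cm L a : ℕ) :
    (2 * ((⌈h * ((CR * 2 ^ (L * 2 ^ (a + 1)) : ℕ) + 1) / κ⌉₊ + Cm : ℕ) : ℝ) + 1) ≤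
      Real.exp ((3 * (h * (CR + 1) / κ₀ + 1 + Cm) + 2 * L) * 2 ^ a) := by
  set n := L * 2 ^ (a + 1) with hn
  set K : ℝ := h * (CR + 1) / κ₀ + 1 + Cm with hK
  have h2n : (1 : ℝ) ≤ 2 ^ n := one_le_pow₀ (by norm_num)
  have h2a : (1 : ℝ) ≤ 2 ^ a := one_le_pow₀ (by norm_num)
  have hκp : 0 < κ := hκ₀.trans_le hκ
  have h1 : (⌈h * ((CR * 2 ^ n : ℕ) + 1) / κ⌉₊ : ℝ) ≤ h * (CR + 1) / κ₀ * 2 ^ n + 1 := by
    have h2 := (Nat.ceil_lt_add_one (a := h * ((CR * 2 ^ n : ℕ) + 1) / κ) (by positivity)).le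
    refine h2.trans ?_
    gcongr ?_ + 1
    push_cast
    calc h * ((CR : ℝ) * 2 ^ n + 1) / κ ≤ h * ((CR : ℝ) * 2 ^ n + 1) / κ₀ :=
          div_le_div_of_nonneg_left (by positivity) hκ₀ hκ
      _ ≤ h * ((CR + 1) * 2 ^ n) / κ₀ := by
          gcongr
          linarith
      _ = h * (CR + 1) / κ₀ * 2 ^ n := by ring
  have h3 : ((⌈h * ((CR * 2 ^ n : ℕ) + 1) / κ⌉₊ + Cm : ℕ) : ℝ) ≤ K * 2 ^ n := by
    push_cast at h1 ⊢
    have h4 : (1 : ℝ) + Cm ≤ (1 + Cm) * 2 ^ n := le_mul_of_one_le_right (by positivity) h2n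
    calc _ ≤ h * (CR + 1) / κ₀ * 2 ^ n + 1 + Cm := by linarith
      _ ≤ h * (CR + 1) / κ₀ * 2 ^ n + (1 + Cm) * 2 ^ n := by linarith
      _ = K * 2 ^ n := by rw [hK]; ring
  have hK1 : 1 ≤ K := by
    rw [hK]
    have : 0 ≤ h * (CR + 1) / κ₀ := by positivity
    have : (0 : ℝ) ≤ Cm := Nat.cast_nonneg _
    linarith
  have h5 : 1 ≤ K * 2 ^ n := by
    calc (1 : ℝ) = 1 * 1 := by ring
      _ ≤ K * 2 ^ n := mul_le_mul hK1 h2n (by norm_num) (by linarith)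
  calc (2 * ((⌈h * ((CR * 2 ^ n : ℕ) + 1) / κ⌉₊ + Cm : ℕ) : ℝ) + 1) ≤ 3 * K * 2 ^ n := by linarith
    _ ≤ Real.exp (3 * K * 2 ^ a) * Real.exp (2 * L * 2 ^ a) := by
        refine mul_le_mul ?_ ?_ (by positivity) (by positivity)
        · refine (le_exp_self _).trans (Real.exp_le_exp.2 ?_)
          exact le_mul_of_one_le_right (by positivity) h2a
        · refine (pow_two_le_exp n).trans (Real.exp_le_exp.2 ?_)
          rw [hn, pow_succ]
          push_cast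
          linarith
    _ = Real.exp ((3 * K + 2 * L) * 2 ^ a) := by
        rw [← Real.exp_add]; congr 1; ring

/-- The refreshing part. -/
theorem num_refresh {v c₃ κ₀ C' C₀ : ℝ} (hv : 0 < v) (hc₃ : 0 < c₃) (hκ₀ : 0 < κ₀)
    (hC' : 0 ≤ C') {k L A a τ : ℕ} (hC : 1 ≤ C₀) (hτ : C₀ * Lw k A ≤ τ)
    (hC₀ : 180 / v + 2 * (L + 3 + (k + 2) * C') ≤ c₃ * κ₀ ^ (k + 2) * C₀) {B : ℝ}
    (hB0 : 0 ≤ B) (hB : B ≤ Real.exp (C' * 2 ^ a)) :
    2 ^ a * ((L : ℝ) * 2 ^ a) * (B ^ (k + 2) *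
      Real.exp (-(c₃ * side κ₀ a τ ^ (k + 2)))) ≤
      1 / 2 * Real.exp (-(12 * 2 ^ a / (v / 15 * ((3 / 4 : ℝ) ^ a + 1 / ((A : ℝ) + 1))))) := by
  have h2a : (1 : ℝ) ≤ 2 ^ a := one_le_pow₀ (by norm_num)
  have e1 : 12 * 2 ^ a / (v / 15 * ((3 / 4 : ℝ) ^ a + 1 / ((A : ℝ) + 1))) =
      180 / v * (2 ^ a * mm A a) := by
    unfold mm
    have := (mm_den_pos A a).ne'
    field_simp
    ring
  rw [e1]
  have hm := half_le_mm A a
  have hm0 := mm_pos A a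
  have e2 : B ^ (k + 2) ≤ Real.exp ((k + 2) * C' * 2 ^ a) := by
    refine (pow_le_pow_left₀ hB0 hB (k + 2)).trans ?_
    rw [← Real.exp_nat_mul, Real.exp_le_exp]
    push_cast
    linarith
  have e3 : 2 * (2 ^ a * ((L : ℝ) * 2 ^ a)) ≤ Real.exp ((1 + L + 1 + 1) * 2 ^ a) := by
    have h1 : (2 : ℝ) ≤ Real.exp (2 ^ a) := by
      have := Real.add_one_le_exp ((2 : ℝ) ^ a)
      linarith
    have h2 : (L : ℝ) ≤ Real.exp (L * 2 ^ a) := by
      refine (le_exp_self L).trans (Real.exp_le_exp.2 ?_)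
      exact le_mul_of_one_le_right (by positivity) h2a
    have h3 : (2 : ℝ) ^ a ≤ Real.exp (2 ^ a) := le_exp_self _
    calc 2 * (2 ^ a * ((L : ℝ) * 2 ^ a)) = 2 * L * 2 ^ a * 2 ^ a := by ring
      _ ≤ Real.exp (2 ^ a) * Real.exp (L * 2 ^ a) * Real.exp (2 ^ a) * Real.exp (2 ^ a) := by
          refine mul_le_mul (mul_le_mul (mul_le_mul h1 h2 (by positivity) (by positivity)) h3
            (by positivity) (by positivity)) h3 (by positivity) (by positivity)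
      _ = Real.exp ((1 + L + 1 + 1) * 2 ^ a) := by
          rw [← Real.exp_add, ← Real.exp_add, ← Real.exp_add]; congr 1; ring
  have e4 : c₃ * κ₀ ^ (k + 2) * C₀ * (2 ^ a * mm A a) ≤ c₃ * side κ₀ a τ ^ (k + 2) := by
    unfold side
    rw [mul_pow]
    calc c₃ * κ₀ ^ (k + 2) * C₀ * (2 ^ a * mm A a) =
        c₃ * κ₀ ^ (k + 2) * (C₀ * (2 ^ a * mm A a)) := by ring
      _ ≤ c₃ * κ₀ ^ (k + 2) * Real.sqrt (2 ^ a * τ) ^ (k + 2) :=
          mul_le_mul_of_nonneg_left (side_growth hC hτ) (by positivity)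
      _ = c₃ * (κ₀ ^ (k + 2) * Real.sqrt (2 ^ a * τ) ^ (k + 2)) := by ring
  have e5 : (180 / v + 2 * (L + 3 + (k + 2) * C')) * (2 ^ a * mm A a) ≤
      c₃ * side κ₀ a τ ^ (k + 2) :=
    (mul_le_mul_of_nonneg_right hC₀ (by positivity)).trans e4
  have e6 : (L + 3 + (k + 2) * C') * 2 ^ a ≤ 2 * (L + 3 + (k + 2) * C') * (2 ^ a * mm A a) := by
    have h1 : (0 : ℝ) ≤ L + 3 + (k + 2) * C' := by positivity
    have h2 : (2 : ℝ) ^ a ≤ 2 * (2 ^ a * mm A a) := by nlinarith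
    calc (L + 3 + (k + 2) * C') * 2 ^ a ≤ (L + 3 + (k + 2) * C') * (2 * (2 ^ a * mm A a)) :=
          mul_le_mul_of_nonneg_left h2 h1
      _ = 2 * (L + 3 + (k + 2) * C') * (2 ^ a * mm A a) := by ring
  have e7 : Real.exp ((1 + L + 1 + 1) * 2 ^ a) * (Real.exp ((k + 2) * C' * 2 ^ a) *
      Real.exp (-(c₃ * side κ₀ a τ ^ (k + 2)))) ≤ Real.exp (-(180 / v * (2 ^ a * mm A a))) := by
    rw [← Real.exp_add, ← Real.exp_add, Real.exp_le_exp]
    have : (180 / v + 2 * (L + 3 + (k + 2) * C')) * (2 ^ a * mm A a) =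
      180 / v * (2 ^ a * mm A a) + 2 * (L + 3 + (k + 2) * C') * (2 ^ a * mm A a) := by ring
    have h8 : (L + 3 + (k + 2) * C') * 2 ^ a =
      (1 + L + 1 + 1) * 2 ^ a + (k + 2) * C' * 2 ^ a := by ring
    linarith
  have e8 : B ^ (k + 2) * Real.exp (-(c₃ * side κ₀ a τ ^ (k + 2))) ≤
      Real.exp ((k + 2) * C' * 2 ^ a) * Real.exp (-(c₃ * side κ₀ a τ ^ (k + 2))) :=
    mul_le_mul_of_nonneg_right e2 (Real.exp_pos _).le
  have e9 := mul_le_mul e3 e8 (by positivity) (by positivity)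
  linarith

end Num

end Pool.Agent.TP.H67
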