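import Pool.Agent.Helper19_TP.Stmts2
import Pool.Agent.Helper51_TP.Rules
import Pool.Agent.Helper67_TP.Prime
import Pool.Agent.Helper67_TP.Base

/-! MODULE FIN (helper67): assembly in characteristic not 2, 3. -/

set_option autoImplicit false

namespace Pool.Agent.TP.H67

open Pool.Agent.TP

/-- no torsion at an invertible natural number -/
theorem tors_of (F : Type) [Field F] (B : Type) [NonUnitalNonAssocRing B] [Module F B] (n : ℕ)
    (hn : (n : F) ≠ 0) (x : B) (h : n • x = 0) : x = 0 := by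
  have h1 : (n : F) • x = 0 := by rw [Nat.cast_smul_eq_nsmul]; exact h
  exact (smul_eq_zero.mp h1).resolve_left hn

/-- divisibility by an invertible natural number -/
theorem div_of (F : Type) [Field F] (B : Type) [NonUnitalNonAssocRing B] [Module F B] (n : ℕ)
    (hn : (n : F) ≠ 0) (x : B) : ∃ y : B, n • y = x := by
  refine ⟨(n : F)⁻¹ • x, ?_⟩
  rw [← Nat.cast_smul_eq_nsmul F, smul_smul, mul_inv_cancel₀ hn, one_smul]

theorem fin (habs : Abs2Stmt) (hr : AnnRStmt) : FinStmt := by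
  intro F _ h2 h3 S hS
  by_contra hns
  obtain ⟨B, i1, i2, i3, i4, x, hRel, hAlt, hSat, hTP, hsolv⟩ := prime F S hns
  have hRules : Rules B := rules F S hS B x hRel hAlt hSat hTP hsolv
  have h2' : ((2 : ℕ) : F) ≠ 0 := by exact_mod_cast h2
  have h3' : ((3 : ℕ) : F) ≠ 0 := by exact_mod_cast h3
  have h6' : ((6 : ℕ) : F) ≠ 0 := by
    have : ((6 : ℕ) : F) = ((2 : ℕ) : F) * ((3 : ℕ) : F) := by push_cast; norm_num
    rw [this]
    exact mul_ne_zero h2' h3'
  have h2B : ∀ x : B, 2 • x = 0 → x = 0 := tors_of F B 2 h2'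
  have h3B : ∀ x : B, 3 • x = 0 → x = 0 := tors_of F B 3 h3'
  have h6B : ∀ x : B, 6 • x = 0 → x = 0 := tors_of F B 6 h6'
  have hcalc : Calc (brB B) (joB B) := base B hAlt h2B h3B hRules.nuc hRules.ann
  have hJ := habs B (brB B) (joB B) hcalc (div_of F B 6 h6') (by
    intro r hrr
    apply hr B hAlt h2B h3B hRules.ann r
    intro x y z
    have h1 := hrr x y z
    rw [Jc_brB hAlt, joB_apply] at h1
    have h4 : 6 • (6 • (r * asc x y z + asc x y z * r)) = 0 := by
      rw [← h1, mul_smul_comm, smul_mul_assoc, ← smul_add]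
    exact h6B _ (h6B _ h4))
  obtain ⟨x, y, z, hxyz⟩ := hRules.nonassoc
  apply hxyz
  apply h6B
  rw [← Jc_brB hAlt]
  exact hJ x y z

end Pool.Agent.TP.H67
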