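import Pool.Agent.Helper19_TP.Stmts

/-!
# Squad TP, module BASE: identities of alternative algebras
-/

set_option autoImplicit false

namespace Pool.Agent.TP.H67

open Pool.Agent.TP

variable {B : Type} [NonUnitalNonAssocRing B]

theorem asc_add1 (x x' y z : B) : asc (x + x') y z = asc x y z + asc x' y z := by
  simp only [asc, add_mul]; abel

theorem asc_add2 (x y y' z : B) : asc x (y + y') z = asc x y z + asc x y' z := by
  simp only [asc, add_mul, mul_add]; abel

theorem asc_add3 (x y z z' : B) : asc x y (z + z') = asc x y z + asc x y z' := by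
  simp only [asc, mul_add]; abel

theorem asc_sub1 (x x' y z : B) : asc (x - x') y z = asc x y z - asc x' y z := by
  simp only [asc, sub_mul]; abel

theorem asc_sub2 (x y y' z : B) : asc x (y - y') z = asc x y z - asc x y' z := by
  simp only [asc, sub_mul, mul_sub]; abel

theorem asc_sub3 (x y z z' : B) : asc x y (z - z') = asc x y z - asc x y z' := by
  simp only [asc, mul_sub]; abel

theorem asc_neg1 (x y z : B) : asc (-x) y z = - asc x y z := by
  simp only [asc, neg_mul]; abel

theorem asc_neg2 (x y z : B) : asc x (-y) z = - asc x y z := by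
  simp only [asc, neg_mul, mul_neg]; abel

theorem asc_neg3 (x y z : B) : asc x y (-z) = - asc x y z := by
  simp only [asc, mul_neg]; abel

/-- commutator -/
def kb (x y : B) : B := x * y - y * x

theorem kb_add1 (x x' y : B) : kb (x + x') y = kb x y + kb x' y := by
  simp only [kb, add_mul, mul_add]; abel

theorem kb_add2 (x y y' : B) : kb x (y + y') = kb x y + kb x y' := by
  simp only [kb, add_mul, mul_add]; abel

theorem kb_sub1 (x x' y : B) : kb (x - x') y = kb x y - kb x' y := by
  simp only [kb, sub_mul, mul_sub]; abel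

theorem kb_sub2 (x y y' : B) : kb x (y - y') = kb x y - kb x y' := by
  simp only [kb, sub_mul, mul_sub]; abel

theorem kb_neg1 (x y : B) : kb (-x) y = - kb x y := by
  simp only [kb, neg_mul, mul_neg]; abel

theorem kb_neg2 (x y : B) : kb x (-y) = - kb x y := by
  simp only [kb, neg_mul, mul_neg]; abel

theorem kb_skew (x y : B) : kb x y = - kb y x := by
  simp only [kb]; abel

theorem kb_zero2 (x : B) : kb x 0 = 0 := by
  rw [kb, mul_zero, zero_mul, sub_zero]

/-! ### alternativity -/

section alt

variable (hB : IsAlt B)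
include hB

theorem a_xxz (x z : B) : asc x x z = 0 := sub_eq_zero.mpr (hB.1 x z)

theorem a_zxx (x z : B) : asc z x x = 0 := sub_eq_zero.mpr (hB.2 x z)

/-- swap the first two -/
theorem s12 (x y z : B) : asc y x z = - asc x y z := by
  have h := a_xxz hB (x + y) z
  rw [asc_add1, asc_add2, asc_add2, a_xxz hB, a_xxz hB] at h
  linear_combination (norm := abel) h

/-- swap the last two -/
theorem s23 (x y z : B) : asc x z y = - asc x y z := by
  have h := a_zxx hB (y + z) x
  rw [asc_add2, asc_add3, asc_add3, a_zxx hB, a_zxx hB] at h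
  linear_combination (norm := abel) h

/-- cyclic shift -/
theorem cyc (x y z : B) : asc y z x = asc x y z := by
  rw [s23 hB y x z, s12 hB x y z, neg_neg]

/-- cyclic shift -/
theorem cyc' (x y z : B) : asc z x y = asc x y z := by
  rw [s12 hB x z y, s23 hB x y z, neg_neg]

theorem s13 (x y z : B) : asc z y x = - asc x y z := by
  rw [s12 hB y z x, cyc hB]

theorem a_xzx (x z : B) : asc x z x = 0 := by
  rw [s23 hB x x z, a_xxz hB, neg_zero]

end alt

/-- Kleinfeld function -/
def kf (w x y z : B) : B := asc (w * x) y z - x * asc w y z - asc x y z * w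

/-- the associator identity -/
theorem tei (w x y z : B) : asc (w * x) y z - asc w (x * y) z + asc w x (y * z) =
    w * asc x y z + asc w x y * z := by
  simp only [asc, mul_sub, sub_mul]; abel

section alt2

variable (hB : IsAlt B)
include hB

theorem tei' (w x y z : B) : asc (w * x) y z - asc (x * y) z w + asc (y * z) w x =
    w * asc x y z + asc w x y * z := by
  rw [← tei, cyc hB w (x * y) z, cyc' hB w x (y * z)]

theorem kf34 (w x y z : B) : kf w x z y = - kf w x y z := by
  simp only [kf]
  rw [s23 hB (w * x) y z, s23 hB w y z, s23 hB x y z, mul_neg, neg_mul]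
  abel

theorem kfc (w x y z : B) : kf z w x y = - kf w x y z := by
  have h1 := tei' hB w x y z
  have h2 := tei' hB x y z w
  simp only [kf]
  rw [cyc hB w y z] at h2
  rw [cyc' hB x y z]
  linear_combination (norm := abel) h1 + h2

theorem kfcc (w x y z : B) : kf y z w x = kf w x y z := by
  rw [kfc hB z w x y, kfc hB w x y z, neg_neg]

theorem kf12 (w x y z : B) : kf x w y z = - kf w x y z := by
  rw [← kfcc hB x w y z, kf34 hB y z w x, kfcc hB w x y z]

theorem kf23 (w x y z : B) : kf w y x z = - kf w x y z := by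
  have h := kfc hB w y x z
  rw [kf34 hB z w x y, kfc hB w x y z, neg_neg] at h
  rw [h, neg_neg]

theorem F2 (w x y z : B) : kf w x y z + kf w x y z =
    asc (kb w x) y z - kb x (asc w y z) + kb w (asc x y z) := by
  have h := kf12 hB w x y z
  have h1 : kf w x y z - kf x w y z =
    asc (kb w x) y z - kb x (asc w y z) + kb w (asc x y z) := by
    simp only [kf, kb, asc_sub1]; abel
  rw [h] at h1
  linear_combination (norm := abel) h1

theorem F3 (w x y z : B) : kf w x y z + kf w x y z + kf w x y z =
    kb w (asc x y z) - kb x (asc y z w) + kb y (asc z w x) - kb z (asc w x y) := by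
  have h := tei' hB w x y z
  have h1 : kf x y z w = - kf w x y z := by
    rw [kfc hB x y z w, neg_neg]
  have h2 := kfcc hB w x y z
  have h3 : kf w x y z - kf x y z w + kf y z w x =
      kf w x y z + kf w x y z + kf w x y z := by
    rw [h1, h2]; abel
  rw [← h3]
  simp only [kf, kb]
  rw [cyc' hB z w x, cyc' hB w x y, cyc hB w y z]
  linear_combination (norm := abel) h

theorem F1 (w x y z : B) : kf w x y z = asc (kb w x) y z + asc (kb y z) w x := by
  have h1 := F2 hB w x y z
  have h2 := F2 hB y z w x
  have h3 := F3 hB w x y z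
  rw [kfcc hB w x y z, cyc' hB w x y] at h2
  rw [cyc hB w y z] at h3
  linear_combination (norm := abel) h1 + h2 - h3

theorem jder (w x y z : B) : asc (w * x + x * w) y z =
    x * asc w y z + asc w y z * x + (w * asc x y z + asc x y z * w) := by
  have h := kf12 hB w x y z
  simp only [kf] at h
  rw [asc_add1]
  linear_combination (norm := abel) h

variable (h2B : ∀ x : B, 2 • x = 0 → x = 0)
include h2B

theorem tw {x : B} (h : x = - x) : x = 0 := by
  apply h2B
  rw [two_smul]
  nth_rewrite 1 [h]
  exact neg_add_cancel x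

theorem tw' {x y : B} (h : x + x = y + y) : x = y := by
  rw [← sub_eq_zero]
  apply h2B
  rw [two_smul]
  linear_combination (norm := abel) h

theorem kf0 (x y z : B) : kf x y x z = 0 := by
  refine tw hB h2B ?_
  have h1 := kf12 hB y x x z
  have h2 : kf x y x z = - kf x x y z := kf23 hB x x y z
  have h3 : kf x x y z = 0 := tw hB h2B (kf12 hB x x y z)
  rw [h2, h3, neg_zero, neg_zero]

theorem kf0' (x y z : B) : kf x y y z = 0 := tw hB h2B (kf23 hB x y y z)

theorem kf0'' (x y z : B) : kf x x y z = 0 := tw hB h2B (kf12 hB x x y z)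

theorem M1 (x y z : B) : asc (x * y) x z = asc y x z * x := by
  have h := kf0 hB h2B x y z
  simp only [kf] at h
  rw [a_xxz hB, mul_zero, sub_zero, sub_eq_zero] at h
  exact h

theorem M2 (x y z : B) : asc (x * y) y z = y * asc x y z := by
  have h := kf0' hB h2B x y z
  simp only [kf] at h
  rw [a_xxz hB, zero_mul, sub_zero, sub_eq_zero] at h
  exact h

/-- `T([x,y],x,z) = [x,T(x,y,z)]` -/
theorem R1 (x y z : B) : asc (kb x y) x z = kb x (asc x y z) := by
  rw [kb, asc_sub1, M1 hB h2B, M2 hB h2B, s12 hB x y z, kb, neg_mul, mul_neg]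
  abel

/-- `T(x,[x,y],z) = -[x,T(x,y,z)]` -/
theorem R1' (x y z : B) : asc x (kb x y) z = - kb x (asc x y z) := by
  rw [s12 hB, R1 hB h2B]

theorem R1'' (x y z : B) : asc x y (kb x z) = - kb x (asc x y z) := by
  rw [s23 hB, R1' hB h2B, s23 hB x y z, kb_neg2, neg_neg]

theorem RR1 (x y z : B) : asc x y (asc x y z) = - (asc x y z * kb x y) := by
  set R := asc x y z with hR
  have h1 : asc x y (y * z) = R * y := by
    rw [← cyc' hB x y (y * z), s23 hB, M1 hB h2B, s13 hB x y z, neg_mul, neg_neg]
  have h2 : ∀ u, asc x y (x * u) = asc x y u * x := by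
    intro u
    rw [← cyc' hB x y (x * u), M1 hB h2B, cyc' hB]
  have h0 : asc (x * y) x y = 0 := by rw [M1 hB h2B, a_xzx hB, zero_mul]
  have h4 : kf (x * y) z x y = asc x y R := by
    rw [← kfcc hB, kf, a_xxz hB, s12 hB (x * y) x z, M1 hB h2B, s12 hB (x * y) y z, M2 hB h2B,
      s12 hB x y z, ← hR, ← cyc' hB x y R, ← cyc' hB R x y, asc]
    simp only [neg_mul, mul_neg]
    abel
  have h3 : asc x y ((x * y) * z) = asc x y R + R * (x * y) := by
    rw [← h4, kf, h0, mul_zero, cyc' hB x y ((x * y) * z), cyc' hB x y z, ← hR]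
    abel
  have h5 : asc x y R = asc x y ((x * y) * z) - (R * y) * x := by
    have h7 : asc x y R = asc x y ((x * y) * z - x * (y * z)) := rfl
    rw [h7, asc_sub3, h2, h1]
  have h6 : (R * y) * x = R * (y * x) - asc x y R := by
    have := s13 hB x y R
    rw [asc] at this
    rw [sub_eq_iff_eq_add] at this
    rw [this]; abel
  rw [h3, h6] at h5
  rw [kb, mul_sub]
  linear_combination (norm := abel) -h5

theorem RR2 (x y z : B) : asc x y (asc x y z) = kb x y * asc x y z := by
  set R := asc x y z with hR
  have h1 : ∀ u, asc x y (u * y) = y * asc x y u := by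
    intro u
    rw [← cyc' hB x y (u * y), s23 hB, M2 hB h2B, s13 hB x y u, mul_neg, neg_neg]
  have h2 : asc x y (z * x) = x * R := by
    rw [← cyc' hB x y (z * x), M2 hB h2B, cyc' hB]
  have h0 : asc (x * y) x y = 0 := by rw [M1 hB h2B, a_xzx hB, zero_mul]
  have h4 : kf (x * y) z x y = asc x y R := by
    rw [← kfcc hB, kf, a_xxz hB, s12 hB (x * y) x z, M1 hB h2B, s12 hB (x * y) y z, M2 hB h2B,
      s12 hB x y z, ← hR, ← cyc' hB x y R, ← cyc' hB R x y, asc]
    simp only [neg_mul, mul_neg]
    abel
  have h3 : asc x y (z * (x * y)) = - asc x y R + (x * y) * R := by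
    have h5 := kf12 hB (x * y) z x y
    rw [h4, kf, h0, zero_mul, cyc' hB x y (z * (x * y)), cyc' hB x y z, ← hR] at h5
    linear_combination (norm := abel) h5
  have h5 : asc x y R = y * (x * R) - asc x y (z * (x * y)) := by
    have h7 : R = (z * x) * y - z * (x * y) := by
      rw [hR, ← cyc' hB x y z, asc]
    conv_lhs => rw [h7, asc_sub3, h1, h2]
  have h6 : y * (x * R) = (y * x) * R + asc x y R := by
    rw [← neg_neg (asc x y R), ← s12 hB x y R, asc]
    abel
  rw [h3, h6] at h5
  rw [kb, sub_mul]
  linear_combination (norm := abel) -h5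

/-- `[x,y] o T(x,y,z) = 0` -/
theorem PP (x y z : B) : kb x y * asc x y z + asc x y z * kb x y = 0 := by
  have h1 := RR1 hB h2B x y z
  have h2 := RR2 hB h2B x y z
  linear_combination (norm := abel) h1 - h2

/-- `[[x,y],T(x,y,z)] = 2 T(x,y,T(x,y,z))` -/
theorem PK (x y z : B) : kb (kb x y) (asc x y z) = asc x y (asc x y z) + asc x y (asc x y z) := by
  have h1 := RR1 hB h2B x y z
  have h2 := RR2 hB h2B x y z
  simp only [kb] at *
  linear_combination (norm := abel) - h1 - h2

/-- `[x,y] o T(x,y,z) = 0` linearized in `y` -/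
theorem PPl (x y y' z : B) : kb x y * asc x y' z + asc x y' z * kb x y +
    (kb x y' * asc x y z + asc x y z * kb x y') = 0 := by
  have h1 := PP hB h2B x (y + y') z
  have h2 := PP hB h2B x y z
  have h3 := PP hB h2B x y' z
  rw [kb_add2, asc_add2] at h1
  simp only [mul_add, add_mul] at h1
  linear_combination (norm := abel) h1 - h2 - h3

/-- commutators are derivations of the Jordan product -/
theorem m2' (a b c : B) : kb (a * b + b * a) c =
    a * kb b c + kb b c * a + (kb a c * b + b * kb a c) := by
  have key : kb (a * b + b * a) c - (a * kb b c + kb b c * a + (kb a c * b + b * kb a c)) =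
      asc a b c + asc b a c + asc c a b + asc c b a - asc a c b - asc b c a := by
    simp only [kb, asc, mul_add, add_mul, mul_sub, sub_mul]; abel
  rw [s12 hB a b c, s23 hB c a b, s23 hB a b c, cyc hB a b c] at key
  rw [← sub_eq_zero, key]
  abel

theorem m2'' (a b x : B) : kb x (a * b + b * a) =
    kb x a * b + b * kb x a + (a * kb x b + kb x b * a) := by
  rw [kb_skew, m2' hB h2B, kb_skew x a, kb_skew x b]
  simp only [mul_neg, neg_mul]
  abel

/-- `T([x,y]^2, x, z) = 0` -/
theorem vv (x y z : B) : asc (kb x y * kb x y) x z = 0 := by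
  have h1 : asc (kb x y * kb x y) x z =
      kb x y * kb x (asc x y z) + kb x (asc x y z) * kb x y := by
    have h := kf0'' hB h2B (kb x y) x z
    rw [kf, R1 hB h2B] at h
    linear_combination (norm := abel) h
  have h2 := PPl hB h2B x y (kb x y) z
  rw [R1' hB h2B, mul_neg, neg_mul] at h2
  have h3 := congrArg (kb x) (PP hB h2B x y z)
  rw [m2'' hB h2B, kb_zero2] at h3
  rw [h1]
  apply tw' hB h2B
  rw [add_zero]
  linear_combination (norm := abel) h3 - h2

/-! ### the calculus with a fixed element -/

/-- `G` -/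
def GG (x y z w : B) : B :=
  kb (kb x y) (asc x z w) + (asc x (asc x z w) y + asc x (asc x z w) y)

theorem GG_skew (x y z w : B) : GG x z y w = - GG x y z w := by
  have h1 := PK hB h2B x (y + z) w
  have h2 := PK hB h2B x y w
  have h3 := PK hB h2B x z w
  simp only [kb_add2, kb_add1, asc_add2, asc_add3] at h1
  simp only [GG]
  rw [s23 hB x y (asc x z w), s23 hB x z (asc x y w)]
  linear_combination (norm := abel) h1 - h2 - h3

theorem GG_skew' (x y z w : B) : GG x y w z = - GG x y z w := by
  simp only [GG]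
  rw [s23 hB x z w]
  simp only [kb_neg2, asc_neg2]
  abel

theorem GG_cyc (x y z w : B) : GG x w y z = GG x y z w := by
  rw [GG_skew hB h2B x y w z, GG_skew' hB h2B x y z w, neg_neg]

/-- three times the Kleinfeld function, with the first argument fixed -/
theorem phi3 (x y z w : B) : kf x y z w + kf x y z w + kf x y z w =
    kb x (asc y z w) - kb y (asc x z w) - kb z (asc x w y) - kb w (asc x y z) := by
  rw [F3 hB x y z w, cyc hB x z w, cyc' hB x y w, s23 hB x w y, kb_neg2]
  abel

theorem kfcyc3 (x y z w : B) : kf x w y z = kf x y z w := by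
  rw [kf23 hB x y w z, kf34 hB x y z w, neg_neg]

theorem CC (x y z w : B) : asc x (kb y z) w =
    kb w (asc x y z) + kf x y z w - kb x (asc y z w) := by
  have h1 := F2 hB y z x w
  have h2 := phi3 hB h2B x y z w
  rw [kfcc hB x w y z, kfcyc3 hB h2B, s12 hB x (kb y z) w, s12 hB x y w, s12 hB x z w,
    kb_neg2, kb_neg2, s23 hB x w y, kb_neg2] at h1
  linear_combination (norm := abel) h1 - h2

theorem tt (x y z w : B) : asc (kb x y) z w =
    kb y (asc x z w) + (kf x y z w + kf x y z w) - kb x (asc y z w) := by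
  have h1 := F1 hB x y z w
  have h2 := CC hB h2B x z w y
  rw [s12 hB x (kb z w) y, h2, ← kfcyc3 hB h2B x z w y, cyc hB y z w] at h1
  linear_combination (norm := abel) -h1

/-- six times the associator, with the first argument fixed -/
theorem J1 (x y z : B) : asc x y z + asc x y z + asc x y z + asc x y z + asc x y z + asc x y z =
    kb (kb x y) z + kb y (kb x z) - kb x (kb y z) := by
  have key : kb (kb x y) z + kb y (kb x z) - kb x (kb y z) = asc x y z - asc x z y - asc y x z
      + asc y z x + asc z x y - asc z y x := by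
    simp only [kb, asc, mul_sub, sub_mul]; abel
  rw [key, s23 hB x y z, s12 hB x y z, cyc hB x y z, cyc' hB x y z, s13 hB x y z]
  abel

/-- (V) -/
theorem VV (x y z w : B) : kb w (kb x (asc x y z)) =
    kb x (kb w (asc x y z)) - GG x y z w - (asc x (asc x y z) w + asc x (asc x y z) w
      + asc x (asc x y z) w + asc x (asc x y z) w) := by
  have h1 := J1 hB h2B x w (asc x y z)
  have h2 : GG x y z w = kb (kb x w) (asc x y z) + (asc x (asc x y z) w + asc x (asc x y z) w) := by
    rw [← GG_cyc hB h2B x y z w, GG]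
  rw [h2]
  rw [s23 hB x (asc x y z) w] at h1
  linear_combination (norm := abel) -h1

/-- `D u` in the first slot of `phi`, times three -/
theorem phiy (x y z w : B) : kf x (kb x y) z w + kf x (kb x y) z w + kf x (kb x y) z w =
    - kb x (kf x y z w) - (GG x y z w + GG x y z w + GG x y z w)
    + (asc x (asc x z w) y + asc x (asc x z w) y)
    - (asc x (asc x w y) z + asc x (asc x w y) z + asc x (asc x w y) z + asc x (asc x w y) z)
    - (asc x (asc x y z) w + asc x (asc x y z) w + asc x (asc x y z) w + asc x (asc x y z) w) := by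
  have h1 := phi3 hB h2B x (kb x y) z w
  have h2 := congrArg (kb x) (phi3 hB h2B x y z w)
  have h3 := VV hB h2B x w y z
  have h4 := VV hB h2B x y z w
  have h5 : kb (kb x y) (asc x z w) =
    GG x y z w - (asc x (asc x z w) y + asc x (asc x z w) y) := by rw [GG]; abel
  rw [tt hB h2B, h5, R1' hB h2B, R1'' hB h2B, kb_neg2, kb_neg2] at h1
  rw [GG_cyc hB h2B x y z w] at h3
  simp only [kb_add2, kb_sub2] at h1 h2
  linear_combination (norm := abel) h1 + h2 + h3 + h4

theorem phiyz (x y z w : B) : kf x (kb x y) z w + kf x (kb x z) w y =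
    - (GG x y z w + GG x y z w) - (asc x (asc x y z) w + asc x (asc x y z) w) := by
  have h1 := congrArg (fun u => asc x u w) (J1 hB h2B x y z)
  have h2 := congrArg (kb x) (phi3 hB h2B x y z w)
  have h4 := VV hB h2B x y z w
  simp only [asc_add2, asc_sub2] at h1
  rw [CC hB h2B x (kb x y) z w, CC hB h2B x y (kb x z) w, R1' hB h2B x (kb y z) w,
    CC hB h2B x y z w, ← cyc hB y (kb x z) w, tt hB h2B x z w y, tt hB h2B x y z w,
    R1' hB h2B x y z, R1'' hB h2B x y z, ← kfcyc3 hB h2B x y (kb x z) w,
    kb_neg2, h4, cyc hB y z w, ← kfcyc3 hB h2B x z w y, ← kfcyc3 hB h2B x w y (kb x z)] at h1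
  simp only [kb_add2, kb_sub2] at h1 h2
  linear_combination (norm := abel) -h1 + h2

theorem Dphi (x y z w : B) : kb x (kf x y z w) =
    - (asc x (asc x z w) y + asc x (asc x w y) z + asc x (asc x y z) w) := by
  have h1 := phiy hB h2B x y z w
  have h2 := phiy hB h2B x z w y
  have h3 := phiyz hB h2B x y z w
  rw [← kfcyc3 hB h2B x z w y, ← GG_cyc hB h2B x z w y] at h2
  apply tw' hB h2B
  linear_combination (norm := abel) h1 + h2 - h3 - h3 - h3

section g2

variable (h3B : ∀ x : B, 3 • x = 0 → x = 0)
include h3B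

theorem th' {x y : B} (h : x + x + x = y + y + y) : x = y := by
  rw [← sub_eq_zero]
  apply h3B
  rw [show (3 : ℕ) = 2 + 1 from rfl, add_smul, two_smul, one_smul]
  linear_combination (norm := abel) h

theorem phiy' (x y z w : B) : kf x (kb x y) z w =
    asc x (asc x z w) y - asc x (asc x w y) z - asc x (asc x y z) w - GG x y z w := by
  have h1 := phiy hB h2B x y z w
  have h2 := Dphi hB h2B x y z w
  apply th' hB h2B h3B
  linear_combination (norm := abel) h1 - h2

theorem GGyz (x y z w : B) : GG x (kb x y) z w = GG x y (kb x z) w := by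
  rw [← GG_cyc hB h2B x (kb x y) z w, ← GG_cyc hB h2B x y (kb x z) w]
  simp only [GG]
  rw [R1' hB h2B x y z, R1'' hB h2B x y z]

theorem alpha (x y z w : B) : asc x (kb (kb x y) (kb x z)) w =
    kb x (asc x (asc x y z) w) + kb x (asc x (asc x y z) w) := by
  have e1 := CC hB h2B x (kb x y) (kb x z) w
  have e2 := VV hB h2B x (kb x y) z w
  have e3 := congrArg (kb x) (VV hB h2B x y z w)
  have e4 := phiy' hB h2B h3B x y (kb x z) w
  have e5 := congrArg (kb x) (phiy' hB h2B h3B x z w y)
  have e6 := congrArg (kb x) (VV hB h2B x z w y)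
  have e7 := congrArg (kb x) (congrArg (kb x) (phi3 hB h2B x y z w))
  have e8 := congrArg (kb x) (Dphi hB h2B x y z w)
  have e9 := GGyz hB h2B h3B x y z w
  rw [R1' hB h2B x y (kb x z), R1'' hB h2B x y z, tt hB h2B x y (kb x z) w,
    ← cyc hB y (kb x z) w, tt hB h2B x z w y, R1' hB h2B x z w, ← kfcyc3 hB h2B x z w y,
    cyc hB y z w, ← kfcyc3 hB h2B x y (kb x z) w, ← kfcyc3 hB h2B x w y (kb x z)] at e1
  rw [R1' hB h2B x y z] at e2
  rw [R1' hB h2B x z w, R1'' hB h2B x y z, R1'' hB h2B x (asc x w y) z] at e4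
  rw [← GG_cyc hB h2B x z w y] at e5 e6
  simp only [kb_add2, kb_sub2, kb_neg2, asc_neg2, R1' hB h2B] at e1 e2 e3 e4 e5 e6 e7 e8 e9
  linear_combination (norm := abel) e1 - e2 + e3 + e4 - e5 - e5 + e6 + e7 - e8 + e9

/-- `T(m,x,w) = 0` -/
theorem gm (x y z w : B) : asc (kb (kb x y) (kb x z) + (kb x (asc x y z) + kb x (asc x y z))) x w
    = 0 := by
  rw [s12 hB x _ w, asc_add2, asc_add2, alpha hB h2B h3B, R1' hB h2B]
  abel

omit h3B in
/-- the closure rule -/
theorem ruleL (hn : ∀ g : B, (∀ y z, asc g y z = 0) → g = 0) (a b : B)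
    (h : ∀ c, asc a b c = 0) : kb a b = 0 := by
  apply hn
  intro y z
  have h1 := F1 hB a b y z
  have h2 : kf a b y z = 0 := by
    rw [← kfcc hB a b y z, kf, ← cyc hB (y * z) a b, h, ← cyc hB y a b, h, ← cyc hB z a b, h,
      mul_zero, zero_mul, sub_zero, sub_zero]
  rw [h2, ← cyc hB (kb y z) a b, h, add_zero] at h1
  exact h1.symm

end g2

end alt2

end Pool.Agent.TP.H67
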